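import Mathlib

/-!
# Lech–Mumford constants
-/

set_option autoImplicit false

open Filter ENNReal PowerSeries

namespace Pool.Agent.V113.Lech

universe u

/-- The length of `S/I` as an extended nonnegative real number. -/
noncomputable def len {S : Type u} [CommRing S] (I : Ideal S) : ℝ≥0∞ :=
  ((Module.length S (S ⧸ I) : ℕ∞) : ℝ≥0∞)

/-- The Krull dimension of `S` as a natural number (for rings of finite nonnegative dimension). -/
noncomputable def dimN (S : Type u) [CommRing S] : ℕ := ((ringKrullDim S).unbotD 0).toNat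

/-- The multiplicity `e(I)`, the upper limit of `e! ℓ(S/I^k) / k^e`, `e = dim S`. -/
noncomputable def mult {S : Type u} [CommRing S] (I : Ideal S) : ℝ≥0∞ :=
  limsup (fun k : ℕ => ((dimN S).factorial : ℝ≥0∞) * len (I ^ k) / (k : ℝ≥0∞) ^ dimN S) atTop

/-- The ratio `e(I) / (e! ℓ(S/I))`, `e = dim S`. -/
noncomputable def ratio {S : Type u} [CommRing S] (I : Ideal S) : ℝ≥0∞ :=
  mult I / (((dimN S).factorial : ℝ≥0∞) * len I)

/-- The Lech–Mumford constant of the local ring `S`. -/
noncomputable def LM (S : Type u) [CommRing S] [IsLocalRing S] : ℝ≥0∞ :=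
  ⨆ (I : Ideal S) (_ : I.radical = IsLocalRing.maximalIdeal S), ratio I

/-- `L_N(R)`: the supremum of the ratios over the ideals of `R[[T]]` that are primary to the maximal
ideal and contained in its `N`-th power. -/
noncomputable def LN (R : Type u) [CommRing R] [IsLocalRing R] (N : ℕ) : ℝ≥0∞ :=
  ⨆ (I : Ideal R⟦X⟧) (_ : I.radical = IsLocalRing.maximalIdeal R⟦X⟧ ∧
    I ≤ IsLocalRing.maximalIdeal R⟦X⟧ ^ N), ratio I

end Pool.Agent.V113.Lech
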