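import Pool.Agent.V113.Lech.Cols
import Pool.Agent.V113.Lech.Defs

set_option autoImplicit false

open Filter ENNReal

namespace Pool.Agent.V113.Lech

universe u

variable {S : Type u} [CommRing S]

theorem cols_sum (w y : S) (P : Ideal S) (hP : P = Ideal.span {w} ⊔ Ideal.span {y})
    (b : Ideal S) (hw : w ∈ b) (M : ℕ) (hM : y ^ M ∈ b) :
    (∑ q ∈ Finset.range M, LL (col b (y ^ q) ⊔ P)) = LL b ∧
    LL b = LL (b ⊔ P) + ∑ q ∈ Finset.range M, LL (col b (y ^ (q + 1)) ⊔ P) := by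
  have hc : col b (y ^ M) = ⊤ := by
    rw [Ideal.eq_top_iff_one, mem_col, mul_one]
    exact hM
  have h1 := LL_sum_cols b y M
  rw [hc, LL_top, add_zero] at h1
  have h2 : (∑ q ∈ Finset.range M, LL (col b (y ^ q) ⊔ P)) = LL b := by
    rw [h1]
    apply Finset.sum_congr rfl
    intro q _
    rw [sup_y_eq w y P hP b hw]
  refine ⟨h2, ?_⟩
  have h3 := Finset.sum_range_succ (fun q => LL (col b (y ^ q) ⊔ P)) M
  have h4 := Finset.sum_range_succ' (fun q => LL (col b (y ^ q) ⊔ P)) M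
  rw [hc, top_sup_eq, LL_top, add_zero] at h3
  rw [← h2, ← h3, h4, pow_zero, col_one, add_comm]

section branch

variable (x y : S) (N : ℕ)
  (hPIR : ∀ K : Ideal S, Ideal.span {x} ⊔ Ideal.span {y} ≤ K →
    ∃ a, K = Ideal.span {a} ⊔ (Ideal.span {x} ⊔ Ideal.span {y}))

theorem P_eq (hN : 1 ≤ N) : Ideal.span {x} ⊔ Ideal.span {y} =
    Ideal.span {x + y ^ N} ⊔ Ideal.span {y} := by
  have hy : y ^ N ∈ Ideal.span {y} := by
    rw [Ideal.mem_span_singleton]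
    exact dvd_pow_self y (by omega)
  apply le_antisymm
  · apply sup_le _ le_sup_right
    rw [Ideal.span_singleton_le_iff_mem]
    have h : (x + y ^ N) + -(y ^ N) ∈ Ideal.span {x + y ^ N} ⊔ Ideal.span {y} :=
      Ideal.add_mem _ (Ideal.mem_sup_left (Ideal.mem_span_singleton_self _))
        (Ideal.mem_sup_right (neg_mem hy))
    rwa [add_neg_cancel_right] at h
  · apply sup_le _ le_sup_right
    rw [Ideal.span_singleton_le_iff_mem]
    exact Ideal.add_mem _ (Ideal.mem_sup_left (Ideal.mem_span_singleton_self _))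
      (Ideal.mem_sup_right hy)

include hPIR in
theorem branch_bound (hN : 1 ≤ N) (I : Ideal S) (M : ℕ) (hM : y ^ M ∈ I) :
    ∃ a b a' b' : ℕ∞, (∀ n : ℕ, 2 * LL (I ^ n ⊔ Ideal.span {x * (x + y ^ N)}) ≤
      (n * (n + 1) : ℕ) * (a + b) + (n * (n - 1) : ℕ) * (a' + b')) ∧
      a' ≤ a ∧ a ≤ LL I ∧ b ≤ LL I ∧
      (∃ j b₀ c : ℕ∞, LL I = a + j ∧ b = b₀ + b' ∧ b ≤ c + j ∧ c ≤ a ∧ c ≤ N * b₀) := by
  set w := x + y ^ N with hw
  set P := Ideal.span {x} ⊔ Ideal.span {y} with hPdef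
  have hP2 : P = Ideal.span {w} ⊔ Ideal.span {y} := P_eq x y N hN
  set b₁ := I ⊔ Ideal.span {x} with hb₁
  set b₂ := I ⊔ Ideal.span {w} with hb₂
  have hx₁ : x ∈ b₁ := Ideal.mem_sup_right (Ideal.mem_span_singleton_self x)
  have hx₂ : w ∈ b₂ := Ideal.mem_sup_right (Ideal.mem_span_singleton_self w)
  have hM₁ : y ^ M ∈ b₁ := Ideal.mem_sup_left hM
  have hM₂ : y ^ M ∈ b₂ := Ideal.mem_sup_left hM
  obtain ⟨e1, e2⟩ := cols_sum x y P hPdef b₁ hx₁ M hM₁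
  obtain ⟨e3, e4⟩ := cols_sum w y P hP2 b₂ hx₂ M hM₂
  refine ⟨LL b₁, LL b₂, ∑ q ∈ Finset.range M, LL (col b₁ (y ^ (q + 1)) ⊔ P),
    ∑ q ∈ Finset.range M, LL (col b₂ (y ^ (q + 1)) ⊔ P), ?_, ?_, LL_anti le_sup_left,
    LL_anti le_sup_left, LL (col I x), LL (b₂ ⊔ P), LL (b₂ ⊔ Ideal.span {y ^ N}), LL_col I x,
    e4, ?_, ?_, ?_⟩
  · intro n
    have h1 := power_bound x y P hPdef hPIR b₁ M hM₁ n
    have h2 := power_bound w y P hP2 hPIR b₂ M hM₂ n
    rw [e1] at h1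
    rw [e3] at h2
    have h3 : LL (I ^ n ⊔ Ideal.span {x * w}) ≤
        LL (b₁ ^ n ⊔ Ideal.span {x}) + LL (b₂ ^ n ⊔ Ideal.span {w}) := by
      refine (LL_mul_le (I ^ n) x w).trans ?_
      gcongr
      · apply LL_anti
        exact sup_le (sup_pow_le _ _ _) le_sup_right
      · apply LL_anti
        exact sup_le (sup_pow_le _ _ _) le_sup_right
    calc 2 * LL (I ^ n ⊔ Ideal.span {x * w})
        ≤ 2 * (LL (b₁ ^ n ⊔ Ideal.span {x}) + LL (b₂ ^ n ⊔ Ideal.span {w})) := by gcongr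
      _ = 2 * LL (b₁ ^ n ⊔ Ideal.span {x}) + 2 * LL (b₂ ^ n ⊔ Ideal.span {w}) := mul_add _ _ _
      _ ≤ _ := add_le_add h1 h2
      _ = _ := by ring
  · calc _ ≤ LL (b₁ ⊔ P) + ∑ q ∈ Finset.range M, LL (col b₁ (y ^ (q + 1)) ⊔ P) := le_add_self
      _ = LL b₁ := e2.symm
  · rw [LL_col b₂ (y ^ N)]
    gcongr
    apply LL_anti
    intro s hs
    rw [mem_col] at hs ⊢
    have : y ^ N * s = w * s - x * s := by rw [hw]; ring
    rw [this]
    exact sub_mem (b₂.mul_mem_right _ hx₂) (Ideal.mem_sup_left hs)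
  · apply LL_anti
    apply sup_le
    · exact le_sup_left.trans le_sup_left
    · rw [Ideal.span_singleton_le_iff_mem]
      have : x = w - y ^ N := by rw [hw]; ring
      rw [this]
      exact sub_mem (Ideal.mem_sup_left hx₂)
        (Ideal.mem_sup_right (Ideal.mem_span_singleton_self _))
  · have h1 := LL_pow_le b₂ y N
    refine h1.trans ?_
    gcongr
    apply LL_anti
    rw [hP2]
    exact sup_le le_sup_left (sup_le (by
      rw [Ideal.span_singleton_le_iff_mem]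
      exact Ideal.mem_sup_left hx₂) le_sup_right)

end branch

theorem length_quot (P : Ideal S) (a : Ideal (S ⧸ P)) :
    Module.length (S ⧸ P) ((S ⧸ P) ⧸ a) = LL (a.comap (Ideal.Quotient.mk P)) := by
  rw [← Module.length_eq_of_surjective (S := S) (R := S ⧸ P) (M := (S ⧸ P) ⧸ a)
    Ideal.Quotient.mk_surjective]
  let f : S →ₗ[S] ((S ⧸ P) ⧸ a) :=
    ((Submodule.mkQ a).restrictScalars S) ∘ₗ (Submodule.mkQ P)
  have hf : LinearMap.ker f = a.comap (Ideal.Quotient.mk P) := by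
    ext s
    rw [LinearMap.mem_ker, Ideal.mem_comap]
    exact Submodule.Quotient.mk_eq_zero a
  have e := f.quotKerEquivOfSurjective
    ((Submodule.mkQ_surjective a).comp (Submodule.mkQ_surjective P))
  rw [hf] at e
  exact e.symm.length_eq

theorem comap_pow (P : Ideal S) (a : Ideal (S ⧸ P)) (n : ℕ) :
    (a ^ n).comap (Ideal.Quotient.mk P) = (a.comap (Ideal.Quotient.mk P)) ^ n ⊔ P := by
  have h1 : a = (a.comap (Ideal.Quotient.mk P)).map (Ideal.Quotient.mk P) :=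
    (Ideal.map_comap_of_surjective _ Ideal.Quotient.mk_surjective a).symm
  conv_lhs => rw [h1]
  rw [← Ideal.map_pow, Ideal.comap_map_of_surjective _ Ideal.Quotient.mk_surjective]
  congr 1
  exact Ideal.mk_ker

theorem len_quot_pow (P : Ideal S) (a : Ideal (S ⧸ P)) (n : ℕ) :
    len (a ^ n) = ((LL ((a.comap (Ideal.Quotient.mk P)) ^ n ⊔ P) : ℕ∞) : ℝ≥0∞) := by
  unfold len
  rw [length_quot, comap_pow]

theorem limsup_aux (A B : ℕ) :
    limsup (fun n : ℕ => (((n * (n + 1) : ℕ) : ℝ≥0∞) * A + ((n * (n - 1) : ℕ) : ℝ≥0∞) * B) /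
      (n : ℝ≥0∞) ^ 2) atTop ≤ ((A + B : ℕ) : ℝ≥0∞) := by
  -- compare with `(A + B) + A / n`
  have h1 : ∀ n : ℕ, n ≠ 0 →
      (((n * (n + 1) : ℕ) : ℝ≥0∞) * A + ((n * (n - 1) : ℕ) : ℝ≥0∞) * B) / (n : ℝ≥0∞) ^ 2 ≤
      ((A + B : ℕ) : ℝ≥0∞) + (A : ℝ≥0∞) / n := by
    intro n hn
    have hn0 : (n : ℝ≥0∞) ≠ 0 := by exact_mod_cast hn
    have hnt : (n : ℝ≥0∞) ≠ ⊤ := natCast_ne_top _
    rw [ENNReal.div_le_iff_le_mul (Or.inl (pow_ne_zero _ hn0)) (Or.inl (pow_ne_top hnt))]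
    have h2 : (((A + B : ℕ) : ℝ≥0∞) + (A : ℝ≥0∞) / n) * (n : ℝ≥0∞) ^ 2 =
        ((A + B : ℕ) : ℝ≥0∞) * n ^ 2 + A * n := by
      rw [add_mul, pow_two, ← mul_assoc (_ / _), ENNReal.div_mul_cancel hn0 hnt]
    rw [h2]
    have h3 : n * (n + 1) * A + n * (n - 1) * B ≤ (A + B) * n ^ 2 + A * n := by
      have : n * (n - 1) ≤ n ^ 2 := by
        rw [pow_two]
        exact Nat.mul_le_mul_left _ (Nat.sub_le _ _)
      nlinarith
    exact_mod_cast h3
  have h2 : Tendsto (fun n : ℕ => ((A + B : ℕ) : ℝ≥0∞) + (A : ℝ≥0∞) / n) atTop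
      (nhds (((A + B : ℕ) : ℝ≥0∞) + 0)) := by
    apply Tendsto.const_add
    have := ENNReal.Tendsto.const_div (m := fun n : ℕ => (n : ℝ≥0∞)) (a := (A : ℝ≥0∞))
      ENNReal.tendsto_nat_nhds_top (Or.inr (natCast_ne_top _))
    rwa [ENNReal.div_top] at this
  rw [add_zero] at h2
  rw [← h2.limsup_eq]
  apply limsup_le_limsup
  · filter_upwards [eventually_ne_atTop 0] with n hn
    exact h1 n hn
  · isBoundedDefault
  · isBoundedDefault

theorem ratio_le (x y : S) (N : ℕ)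
    (hPIR : ∀ K : Ideal S, Ideal.span {x} ⊔ Ideal.span {y} ≤ K →
      ∃ a, K = Ideal.span {a} ⊔ (Ideal.span {x} ⊔ Ideal.span {y}))
    (hN : 1 ≤ N) (P : Ideal S) (hP : P = Ideal.span {x * (x + y ^ N)})
    (hdim : dimN (S ⧸ P) = 2) (a : Ideal (S ⧸ P))
    (hM : ∃ M, y ^ M ∈ a.comap (Ideal.Quotient.mk P)) :
    ratio a ≤ (4 * N - 1 : ℕ) / (2 * N : ℕ) := by
  obtain ⟨M, hM⟩ := hM
  set I := a.comap (Ideal.Quotient.mk P) with hI
  have hPI : P ≤ I := by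
    intro s hs
    rw [hI, Ideal.mem_comap, Ideal.Quotient.eq_zero_iff_mem.2 hs]
    exact a.zero_mem
  obtain ⟨α, β, α', β', h1, h2, h3, h4, j, b₀, c, h5, h6, h7, h8, h9⟩ :=
    branch_bound x y N hPIR hN I M hM
  rw [← hP] at h1
  have hlen : len a = ((LL I : ℕ∞) : ℝ≥0∞) := by
    have := len_quot_pow P a 1
    rw [pow_one, pow_one, sup_eq_left.2 hPI] at this
    exact this
  by_cases htop : LL I = ⊤
  · unfold ratio
    rw [hlen, htop]
    have h10 : ((dimN (S ⧸ P)).factorial : ℝ≥0∞) * ((⊤ : ℕ∞) : ℝ≥0∞) = ⊤ := by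
      rw [ENat.toENNReal_top, ENNReal.mul_top]
      exact_mod_cast Nat.factorial_ne_zero _
    rw [h10, ENNReal.div_top]
    exact bot_le
  -- all are finite
  have hα : α ≠ ⊤ := ne_top_of_le_ne_top htop h3
  have hβ : β ≠ ⊤ := ne_top_of_le_ne_top htop h4
  have hα' : α' ≠ ⊤ := ne_top_of_le_ne_top hα h2
  have hβ' : β' ≠ ⊤ := ne_top_of_le_ne_top hβ (h6 ▸ le_add_self)
  have hb₀ : b₀ ≠ ⊤ := ne_top_of_le_ne_top hβ (h6 ▸ le_self_add)
  have hj : j ≠ ⊤ := ne_top_of_le_ne_top htop (h5 ▸ le_add_self)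
  have hc : c ≠ ⊤ := ne_top_of_le_ne_top hα h8
  lift α to ℕ using hα
  lift β to ℕ using hβ
  lift α' to ℕ using hα'
  lift β' to ℕ using hβ'
  lift b₀ to ℕ using hb₀
  lift j to ℕ using hj
  lift c to ℕ using hc
  have hmult : mult a ≤ (((α + β) + (α' + β') : ℕ) : ℝ≥0∞) := by
    refine le_trans ?_ (limsup_aux (α + β) (α' + β'))
    unfold mult
    rw [hdim]
    apply limsup_le_limsup
    · apply Eventually.of_forall
      intro n
      apply ENNReal.div_le_div_right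
      rw [len_quot_pow]
      have h10 := h1 n
      have h11 : (((2 * LL (I ^ n ⊔ P) : ℕ∞)) : ℝ≥0∞) ≤
        (((n * (n + 1) : ℕ) * ((α : ℕ∞) + β) + (n * (n - 1) : ℕ) * ((α' : ℕ∞) + β') : ℕ∞) : ℝ≥0∞) :=
          ENat.toENNReal_le.2 h10
      simpa using h11
    · isBoundedDefault
    · isBoundedDefault
  unfold ratio
  rw [hlen, hdim, h5]
  have h10 : N * ((α + β) + (α' + β')) ≤ (4 * N - 1) * (α + j) := by
    have e2 : α' ≤ α := by exact_mod_cast h2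
    have e6 : β = b₀ + β' := by exact_mod_cast h6
    have e7 : β ≤ c + j := by exact_mod_cast h7
    have e8 : c ≤ α := by exact_mod_cast h8
    have e9 : c ≤ N * b₀ := by exact_mod_cast h9
    have e10 : (4 * N - 1) * (α + j) + (α + j) = 4 * N * (α + j) := by
      have : 4 * N - 1 + 1 = 4 * N := by omega
      calc (4 * N - 1) * (α + j) + (α + j) = (4 * N - 1 + 1) * (α + j) := by ring
        _ = _ := by rw [this]
    nlinarith
  apply ENNReal.div_le_of_le_mul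
  refine hmult.trans ?_
  have hN0 : (N : ℝ≥0∞) ≠ 0 := by
    have : N ≠ 0 := by omega
    exact_mod_cast this
  have hNt : (N : ℝ≥0∞) ≠ ⊤ := natCast_ne_top _
  rw [← ENNReal.mul_le_mul_iff_right hN0 hNt]
  have h11 : (N : ℝ≥0∞) * ((((4 * N - 1 : ℕ) : ℝ≥0∞)) / ((2 * N : ℕ) : ℝ≥0∞) *
      (((Nat.factorial 2 : ℕ) : ℝ≥0∞) * (((α : ℕ∞) + (j : ℕ∞) : ℕ∞) : ℝ≥0∞))) =
      (((4 * N - 1) * (α + j) : ℕ) : ℝ≥0∞) := by
    have h12 : ((2 * N : ℕ) : ℝ≥0∞) ≠ 0 := by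
      have : 2 * N ≠ 0 := by omega
      exact_mod_cast this
    have h13 : ((2 * N : ℕ) : ℝ≥0∞) ≠ ⊤ := natCast_ne_top _
    calc (N : ℝ≥0∞) * ((((4 * N - 1 : ℕ) : ℝ≥0∞)) / ((2 * N : ℕ) : ℝ≥0∞) *
      (((Nat.factorial 2 : ℕ) : ℝ≥0∞) * (((α : ℕ∞) + (j : ℕ∞) : ℕ∞) : ℝ≥0∞)))
        = (((4 * N - 1 : ℕ) : ℝ≥0∞) / ((2 * N : ℕ) : ℝ≥0∞) * ((2 * N : ℕ) : ℝ≥0∞)) *
          ((α : ℝ≥0∞) + j) := by
          push_cast
          simp
          ring
      _ = _ := by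
          rw [ENNReal.div_mul_cancel h12 h13]
          push_cast
          rfl
  rw [h11]
  exact_mod_cast h10

end Pool.Agent.V113.Lech
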