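import Mathlib

set_option autoImplicit false

namespace Pool.Agent.V113.Lech

universe u

variable {S : Type u} [CommRing S]

/-- The length of `S/I`. -/
noncomputable def LL (I : Ideal S) : ℕ∞ := Module.length S (S ⧸ I)

/-- The colon ideal `(I : a)`. -/
def col (I : Ideal S) (a : S) : Ideal S where
  carrier := {s | a * s ∈ I}
  add_mem' := by
    intro s t hs ht
    change a * (s + t) ∈ I
    rw [mul_add]
    exact I.add_mem hs ht
  zero_mem' := by
    change a * 0 ∈ I
    rw [mul_zero]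
    exact I.zero_mem
  smul_mem' := by
    intro c s hs
    change a * (c * s) ∈ I
    rw [mul_left_comm]
    exact I.mul_mem_left _ hs

theorem mem_col {I : Ideal S} {a s : S} : s ∈ col I a ↔ a * s ∈ I := Iff.rfl

theorem LL_anti {I J : Ideal S} (h : I ≤ J) : LL J ≤ LL I :=
  Module.length_le_of_surjective (Submodule.factor h) (Submodule.factor_surjective h)

theorem LL_top : LL (⊤ : Ideal S) = 0 := by
  unfold LL
  rw [Module.length_eq_zero]

theorem LL_col (I : Ideal S) (a : S) : LL I = LL (I ⊔ Ideal.span {a}) + LL (col I a) := by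
  unfold LL
  -- `S/(I : a) → S/I → S/(I + a)`
  let f₀ : S →ₗ[S] S ⧸ I := (Submodule.mkQ I) ∘ₗ (LinearMap.lsmul S S a)
  have hf₀ : LinearMap.ker f₀ = col I a := by
    ext s
    rw [LinearMap.mem_ker, mem_col]
    exact Submodule.Quotient.mk_eq_zero I
  let f : (S ⧸ col I a) →ₗ[S] (S ⧸ I) := (col I a).liftQ f₀ (by rw [hf₀])
  have hf : Function.Injective f := by
    rw [← LinearMap.ker_eq_bot]
    exact Submodule.ker_liftQ_eq_bot _ _ _ (by rw [hf₀])
  let g : (S ⧸ I) →ₗ[S] (S ⧸ (I ⊔ Ideal.span {a})) := Submodule.factor le_sup_left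
  have hg : Function.Surjective g := Submodule.factor_surjective le_sup_left
  have hfg : Function.Exact f g := by
    intro y
    obtain ⟨s, rfl⟩ := Submodule.mkQ_surjective I y
    have h1 : g (I.mkQ s) = 0 ↔ s ∈ I ⊔ Ideal.span {a} := Submodule.Quotient.mk_eq_zero _
    rw [h1, Submodule.mem_sup]
    constructor
    · rintro ⟨i, hi, t, ht, rfl⟩
      obtain ⟨c, rfl⟩ := Ideal.mem_span_singleton'.1 ht
      refine ⟨(col I a).mkQ c, ?_⟩
      change (I.mkQ) (a * c) = _
      rw [map_add]
      have : I.mkQ i = 0 := (Submodule.Quotient.mk_eq_zero I).2 hi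
      rw [this, zero_add, mul_comm]
    · rintro ⟨z, hz⟩
      obtain ⟨c, rfl⟩ := Submodule.mkQ_surjective _ z
      have h2 : (I.mkQ) (a * c) = I.mkQ s := hz
      rw [← sub_eq_zero, ← map_sub] at h2
      have h3 : a * c - s ∈ I := (Submodule.Quotient.mk_eq_zero I).1 h2
      refine ⟨-(a * c - s), I.neg_mem h3, a * c, Ideal.mem_span_singleton'.2 ⟨c, mul_comm _ _⟩, ?_⟩
      ring
  rw [Module.length_eq_add_of_exact f g hf hg hfg, add_comm]

theorem LL_mul_le (K : Ideal S) (a b : S) :
    LL (K ⊔ Ideal.span {a * b}) ≤ LL (K ⊔ Ideal.span {a}) + LL (K ⊔ Ideal.span {b}) := by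
  rw [LL_col _ a]
  gcongr
  · apply LL_anti
    exact sup_le (le_sup_left.trans le_sup_left) le_sup_right
  · apply LL_anti
    apply sup_le
    · intro s hs
      exact Ideal.mem_sup_left (K.mul_mem_left _ hs)
    · rw [Ideal.span_singleton_le_iff_mem]
      exact Ideal.mem_sup_right (Ideal.mem_span_singleton_self _)

theorem LL_pow_le (K : Ideal S) (a : S) (n : ℕ) :
    LL (K ⊔ Ideal.span {a ^ n}) ≤ n * LL (K ⊔ Ideal.span {a}) := by
  induction n with
  | zero => simp [LL_top]
  | succ n ih =>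
    rw [pow_succ]
    refine (LL_mul_le K (a ^ n) a).trans ?_
    push_cast
    rw [add_mul, one_mul]
    gcongr

theorem LL_prod_le {P K K' : Ideal S} (hK : ∃ a, K = Ideal.span {a} ⊔ P) :
    LL (K * K' ⊔ P) ≤ LL K + LL K' := by
  obtain ⟨a, rfl⟩ := hK
  rw [LL_col _ a]
  gcongr
  · apply LL_anti
    apply sup_le
    · exact le_sup_right
    · exact le_sup_right.trans le_sup_left
  · apply LL_anti
    intro s hs
    exact Ideal.mem_sup_left (Ideal.mul_mem_mul
      (Ideal.mem_sup_left (Ideal.mem_span_singleton_self a)) hs)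

theorem LL_prod_pow_le {P K : Ideal S} (hK : ∃ a, K = Ideal.span {a} ⊔ P) (J : Ideal S) (n : ℕ)
    (hPJ : P ≤ J) : LL (K ^ n * J ⊔ P) ≤ n * LL K + LL J := by
  induction n with
  | zero =>
    rw [pow_zero, one_mul, sup_eq_left.2 hPJ]
    simp
  | succ n ih =>
    have h1 : K * (K ^ n * J ⊔ P) ⊔ P ≤ K ^ (n + 1) * J ⊔ P := by
      rw [Ideal.mul_sup]
      apply sup_le
      · apply sup_le
        · rw [pow_succ', mul_assoc]
          exact le_sup_left
        · exact le_trans Ideal.mul_le_right le_sup_right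
      · exact le_sup_right
    refine (LL_anti h1).trans ((LL_prod_le hK).trans ?_)
    push_cast
    rw [add_mul, one_mul, add_comm (↑n * LL K), add_assoc]
    gcongr

theorem col_col (I : Ideal S) (a b : S) : col (col I a) b = col I (a * b) := by
  ext s
  rw [mem_col, mem_col, mem_col, mul_assoc]

theorem col_one (I : Ideal S) : col I 1 = I := by
  ext s
  rw [mem_col, one_mul]

theorem le_col_iff {I J : Ideal S} {a : S} : J ≤ col I a ↔ Ideal.span {a} * J ≤ I := by
  rw [Ideal.span_singleton_mul_le_iff]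
  rfl

theorem LL_sum_cols (I : Ideal S) (y : S) (M : ℕ) :
    LL I = ∑ i ∈ Finset.range M, LL (col I (y ^ i) ⊔ Ideal.span {y}) + LL (col I (y ^ M)) := by
  induction M with
  | zero => rw [Finset.sum_range_zero, zero_add, pow_zero, col_one]
  | succ M ih =>
    rw [Finset.sum_range_succ, ih, LL_col (col I (y ^ M)) y, col_col, ← pow_succ, add_assoc]

theorem sup_pow_le (I P : Ideal S) (n : ℕ) : (I ⊔ P) ^ n ≤ I ^ n ⊔ P := by
  induction n with
  | zero => simp
  | succ n ih =>
    rw [pow_succ]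
    refine (Ideal.mul_mono_left ih).trans ?_
    rw [Ideal.sup_mul, Ideal.mul_sup, ← pow_succ]
    apply sup_le
    · apply sup_le
      · exact le_sup_left
      · exact le_trans Ideal.mul_le_right le_sup_right
    · exact le_trans Ideal.mul_le_left le_sup_right

theorem col_pow_le (b : Ideal S) (y : S) (q a r : ℕ) :
    col b (y ^ q) ^ a * col b (y ^ (q + 1)) ^ r ≤ col (b ^ (a + r)) (y ^ (q * a + (q + 1) * r)) := by
  rw [le_col_iff]
  have h1 : (Ideal.span {y ^ q} * col b (y ^ q)) ^ a ≤ b ^ a :=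
    Ideal.pow_right_mono (le_col_iff.1 le_rfl) a
  have h2 : (Ideal.span {y ^ (q + 1)} * col b (y ^ (q + 1))) ^ r ≤ b ^ r :=
    Ideal.pow_right_mono (le_col_iff.1 le_rfl) r
  have h3 := Ideal.mul_mono h1 h2
  rw [mul_pow, mul_pow, Ideal.span_singleton_pow, Ideal.span_singleton_pow] at h3
  rw [pow_add b, pow_add y, pow_mul, pow_mul]
  refine le_trans (le_of_eq ?_) h3
  rw [← Ideal.span_singleton_mul_span_singleton]
  ring

section columns

variable (w y : S) (P : Ideal S) (hP : P = Ideal.span {w} ⊔ Ideal.span {y})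
  (hPIR : ∀ K : Ideal S, P ≤ K → ∃ a, K = Ideal.span {a} ⊔ P)

include hPIR in
theorem col_bound (b : Ideal S) (n q r : ℕ) (hr : r ≤ n) :
    LL (col (b ^ n ⊔ Ideal.span {w}) (y ^ (q * n + r)) ⊔ P) ≤
      (n - r : ℕ) * LL (col b (y ^ q) ⊔ P) + r * LL (col b (y ^ (q + 1)) ⊔ P) := by
  have h1 := LL_prod_pow_le (hPIR (col b (y ^ (q + 1)) ⊔ P) le_sup_right) ⊤ r le_top
  rw [Ideal.mul_top, LL_top, add_zero] at h1
  have h2 := LL_prod_pow_le (hPIR (col b (y ^ q) ⊔ P) le_sup_right)
    ((col b (y ^ (q + 1)) ⊔ P) ^ r ⊔ P) (n - r) le_sup_right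
  refine le_trans ?_ (h2.trans (by gcongr))
  apply LL_anti
  apply sup_le _ le_sup_right
  rw [Ideal.mul_sup]
  apply sup_le
  · refine (Ideal.mul_mono (sup_pow_le _ _ _) (sup_pow_le _ _ _)).trans ?_
    rw [Ideal.sup_mul, Ideal.mul_sup]
    apply sup_le
    · apply sup_le
      · have h3 := col_pow_le b y q (n - r) r
        have h4 : n - r + r = n := Nat.sub_add_cancel hr
        have h5 : q * (n - r) + (q + 1) * r = q * n + r := by
          rw [add_mul, one_mul, ← add_assoc, ← mul_add, h4]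
        rw [h4, h5] at h3
        refine h3.trans (le_trans ?_ le_sup_left)
        intro s hs
        exact Ideal.mem_sup_left hs
      · exact le_trans Ideal.mul_le_right le_sup_right
    · exact le_trans Ideal.mul_le_left le_sup_right
  · exact le_trans Ideal.mul_le_right le_sup_right

include hP in
theorem sup_y_eq (I : Ideal S) (hw : w ∈ I) (a : S) : col I a ⊔ Ideal.span {y} = col I a ⊔ P := by
  rw [hP]
  apply le_antisymm
  · exact sup_le le_sup_left (le_sup_right.trans le_sup_right)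
  · apply sup_le le_sup_left
    apply sup_le _ le_sup_right
    rw [Ideal.span_singleton_le_iff_mem]
    exact Ideal.mem_sup_left (I.mul_mem_left _ hw)

theorem sum_range_mul (f : ℕ → ℕ∞) (M n : ℕ) :
    ∑ m ∈ Finset.range (M * n), f m =
      ∑ q ∈ Finset.range M, ∑ r ∈ Finset.range n, f (q * n + r) := by
  induction M with
  | zero => simp
  | succ M ih =>
    rw [add_mul, one_mul, Finset.sum_range_add, ih, Finset.sum_range_succ]

include hP hPIR in
theorem power_bound (b : Ideal S) (M : ℕ) (hM : y ^ M ∈ b) (n : ℕ) :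
    2 * LL (b ^ n ⊔ Ideal.span {w}) ≤
      (n * (n + 1) : ℕ) * (∑ q ∈ Finset.range M, LL (col b (y ^ q) ⊔ P)) +
      (n * (n - 1) : ℕ) * (∑ q ∈ Finset.range M, LL (col b (y ^ (q + 1)) ⊔ P)) := by
  have h1 := LL_sum_cols (b ^ n ⊔ Ideal.span {w}) y (M * n)
  have h2 : LL (col (b ^ n ⊔ Ideal.span {w}) (y ^ (M * n))) = 0 := by
    have : col (b ^ n ⊔ Ideal.span {w}) (y ^ (M * n)) = ⊤ := by
      rw [Ideal.eq_top_iff_one, mem_col, mul_one, pow_mul]
      exact Ideal.mem_sup_left (Ideal.pow_mem_pow hM n)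
    rw [this, LL_top]
  rw [h2, add_zero, sum_range_mul] at h1
  have h3 : LL (b ^ n ⊔ Ideal.span {w}) ≤ ∑ q ∈ Finset.range M, ∑ r ∈ Finset.range n,
      ((n - r : ℕ) * LL (col b (y ^ q) ⊔ P) + r * LL (col b (y ^ (q + 1)) ⊔ P)) := by
    rw [h1]
    apply Finset.sum_le_sum
    intro q _
    apply Finset.sum_le_sum
    intro r hr
    rw [sup_y_eq w y P hP _ (Ideal.mem_sup_right (Ideal.mem_span_singleton_self w))]
    exact col_bound w y P hPIR b n q r (Finset.mem_range.1 hr).le
  have h4 : 2 * (∑ q ∈ Finset.range M, ∑ r ∈ Finset.range n,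
      (((n - r : ℕ) : ℕ∞) * LL (col b (y ^ q) ⊔ P) + r * LL (col b (y ^ (q + 1)) ⊔ P))) =
      (n * (n + 1) : ℕ) * (∑ q ∈ Finset.range M, LL (col b (y ^ q) ⊔ P)) +
      (n * (n - 1) : ℕ) * (∑ q ∈ Finset.range M, LL (col b (y ^ (q + 1)) ⊔ P)) := by
    have e1 : 2 * ∑ r ∈ Finset.range n, (n - r) = n * (n + 1) := by
      have h5 : ∑ r ∈ Finset.range n, (n - r) = ∑ r ∈ Finset.range n, (r + 1) := by
        rw [← Finset.sum_range_reflect]
        apply Finset.sum_congr rfl
        intro r hr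
        rw [Finset.mem_range] at hr
        omega
      have h6 := Finset.sum_range_succ' (fun r => r) n
      rw [h5]
      have h7 := Finset.sum_range_id_mul_two (n + 1)
      simp only [add_zero] at h6
      rw [h6, Nat.add_sub_cancel] at h7
      linarith
    have e2 : 2 * ∑ r ∈ Finset.range n, r = n * (n - 1) := by
      rw [mul_comm]
      exact Finset.sum_range_id_mul_two n
    rw [← e1, ← e2]
    push_cast
    simp only [Finset.sum_add_distrib, ← Finset.sum_mul, ← Finset.mul_sum]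
    ring
  calc 2 * LL (b ^ n ⊔ Ideal.span {w}) ≤ _ := by gcongr
    _ = _ := h4

end columns

end Pool.Agent.V113.Lech
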