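import Mathlib

set_option autoImplicit false

namespace Pool.Agent.V113.Lech

universe u v

section length

variable {R : Type u} {S : Type v} [CommRing R] [CommRing S] [IsLocalRing S] [Algebra R S]

theorem simple_restrict (h : ∀ s : S, ∃ r : R, s - algebraMap R S r ∈ IsLocalRing.maximalIdeal S)
    (P : Type*) [AddCommGroup P] [Module S P] [Module R P] [IsScalarTower R S P]
    [hP : IsSimpleModule S P] : IsSimpleModule R P := by
  rw [isSimpleModule_iff_toSpanSingleton_surjective] at hP ⊢
  refine ⟨hP.1, fun x hx y => ?_⟩
  obtain ⟨s, hs⟩ := hP.2 x hx y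
  obtain ⟨r, hr⟩ := h s
  refine ⟨r, ?_⟩
  have hS : IsSimpleModule S P := isSimpleModule_iff_toSpanSingleton_surjective.2 hP
  have h1 : Module.annihilator S P = IsLocalRing.maximalIdeal S :=
    IsLocalRing.eq_maximalIdeal (IsSimpleModule.annihilator_isMaximal)
  rw [← h1, Module.mem_annihilator] at hr
  have h2 := hr x
  rw [sub_smul, algebraMap_smul, sub_eq_zero] at h2
  rw [LinearMap.toSpanSingleton_apply] at hs ⊢
  rw [← h2, hs]

theorem length_le_of_finite
    (h : ∀ s : S, ∃ r : R, s - algebraMap R S r ∈ IsLocalRing.maximalIdeal S)
    (M : Type*) [AddCommGroup M] [Module S M] (hM : IsFiniteLength S M) :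
    ∀ [Module R M] [IsScalarTower R S M], Module.length R M ≤ Module.length S M := by
  induction hM with
  | of_subsingleton =>
    intro _ _
    rw [Module.length_eq_zero]
    simp
  | @of_simple_quotient M _ _ N _ hN ih =>
    intro _ _
    have h1 := Module.length_eq_add_of_exact N.subtype N.mkQ N.injective_subtype
      N.mkQ_surjective (by
        rw [LinearMap.exact_iff]
        simp)
    have h2 := Module.length_eq_add_of_exact (N.subtype.restrictScalars R)
      (N.mkQ.restrictScalars R) N.injective_subtype N.mkQ_surjective (by
        rw [LinearMap.exact_iff]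
        ext x
        simp)
    rw [h1, h2]
    have h3 : IsSimpleModule R (M ⧸ N) := simple_restrict h (M ⧸ N)
    have h4 := Module.length_eq_one R (M ⧸ N)
    have h5 := Module.length_eq_one S (M ⧸ N)
    rw [h4, h5]
    gcongr
    exact ih

/-- Lengths over `S` and over `R` agree when `R` maps onto the residue field of `S`. -/
theorem length_eq (h : ∀ s : S, ∃ r : R, s - algebraMap R S r ∈ IsLocalRing.maximalIdeal S)
    (M : Type*) [AddCommGroup M] [Module S M] [Module R M] [IsScalarTower R S M] :
    Module.length R M = Module.length S M := by
  apply le_antisymm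
  · by_cases h1 : Module.length S M = ⊤
    · rw [h1]
      exact le_top
    · exact length_le_of_finite h M (Module.length_ne_top_iff.1 h1)
  · have h1 := Submodule.length_le_length_restrictScalars (R := S) (M := M) R ⊤
    rwa [Module.length_top, Submodule.restrictScalars_top, Module.length_top] at h1

end length

end Pool.Agent.V113.Lech
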