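import Pool.Agent.V113.Lech.Ring3
import Pool.Agent.V113.Lech.Branch
import Pool.Agent.V113.Lech.Length

set_option autoImplicit false

open Filter ENNReal IsLocalRing

namespace Pool.Agent.V113.Lech

universe u

variable (k : Type u) [Field k]

theorem isLocalRing_quot (n : ℕ) (P : Ideal (PS k n)) (hP : P ≠ ⊤) : IsLocalRing (PS k n ⧸ P) := by
  have : Nontrivial (PS k n ⧸ P) := Ideal.Quotient.nontrivial_iff.2 hP
  exact IsLocalRing.of_surjective' (Ideal.Quotient.mk P) Ideal.Quotient.mk_surjective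

theorem dimN_quot (f : PS k 3) (hf : f ≠ 0) (hf' : f ∈ maximalIdeal (PS k 3)) :
    dimN (PS k 3 ⧸ Ideal.span {f}) = 2 := by
  have h1 := ringKrullDim_quotient_succ_le_of_nonZeroDivisor (mem_nonZeroDivisors_of_ne_zero hf)
  have h2 := ringKrullDim_le_ringKrullDim_quotient_add_encard (R := PS k 3) {f} (by
    rw [Set.singleton_subset_iff, SetLike.mem_coe, IsLocalRing.ringJacobson_eq_maximalIdeal]
    exact hf')
  rw [dim_eq] at h1 h2
  rw [Set.encard_singleton] at h2
  have hne : Ideal.span {f} ≠ ⊤ := by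
    intro h
    have : Ideal.span {f} ≤ maximalIdeal (PS k 3) := by
      rwa [Ideal.span_singleton_le_iff_mem]
    rw [h, top_le_iff] at this
    exact (maximalIdeal.isMaximal (PS k 3)).ne_top this
  have : Nontrivial (PS k 3 ⧸ Ideal.span {f}) := Ideal.Quotient.nontrivial_iff.2 hne
  have h3 : (0 : WithBot ℕ∞) ≤ ringKrullDim (PS k 3 ⧸ Ideal.span {f}) :=
    ringKrullDim_nonneg_of_nontrivial
  unfold dimN
  generalize ringKrullDim (PS k 3 ⧸ Ideal.span {f}) = d at h1 h2 h3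
  induction d with
  | bot => simp at h3
  | coe d =>
    rw [WithBot.unbotD_coe]
    have h4 : d + 1 ≤ 3 := by
      rw [← WithBot.coe_le_coe]
      simpa using h1
    have h5 : 3 ≤ d + 1 := by
      rw [← WithBot.coe_le_coe]
      simpa using h2
    have hd : d ≠ ⊤ := by
      rintro rfl
      simp at h4
    lift d to ℕ using hd
    have h6 : d + 1 ≤ 3 := by exact_mod_cast h4
    have h7 : 3 ≤ d + 1 := by exact_mod_cast h5
    rw [ENat.toNat_natCast]
    omega

theorem maximalIdeal_quot (n : ℕ) (P : Ideal (PS k n)) [IsLocalRing (PS k n ⧸ P)] :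
    (maximalIdeal (PS k n)).map (Ideal.Quotient.mk P) = maximalIdeal (PS k n ⧸ P) :=
  IsLocalRing.map_maximalIdeal_of_surjective (Ideal.Quotient.mk _) Ideal.Quotient.mk_surjective

theorem X0_ne_zero : (MvPowerSeries.X 0 : PS k 3) ≠ 0 := by
  intro h
  have h2 := congrArg (MvPowerSeries.coeff (Finsupp.single (0 : Fin 3) 1)) h
  rw [map_zero, MvPowerSeries.coeff_index_single_self_X] at h2
  exact one_ne_zero h2

/-- The perturbed ring has small Lech–Mumford constant. -/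
theorem LM_le (N : ℕ) (hN : 1 ≤ N) (P : Ideal (PS k 3))
    (hP : P = Ideal.span {MvPowerSeries.X 0 * (MvPowerSeries.X 0 + MvPowerSeries.X 1 ^ N)})
    [IsLocalRing (PS k 3 ⧸ P)] :
    LM (PS k 3 ⧸ P) ≤ (4 * N - 1 : ℕ) / (2 * N : ℕ) := by
  have hX0 : (MvPowerSeries.X 0 : PS k 3) ≠ 0 := X0_ne_zero k
  have h1 : (MvPowerSeries.X 0 : PS k 3) + MvPowerSeries.X 1 ^ N ≠ 0 := by
    intro h
    have h2 := congrArg (MvPowerSeries.coeff (Finsupp.single (0 : Fin 3) 1)) h
    rw [map_add, MvPowerSeries.X_pow_eq, MvPowerSeries.coeff_monomial_ne, map_zero, add_zero,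
      MvPowerSeries.coeff_index_single_self_X] at h2
    · exact one_ne_zero h2
    · intro h3
      have h4 := DFunLike.congr_fun h3 0
      simp at h4
  have hm : (MvPowerSeries.X 0 * (MvPowerSeries.X 0 + MvPowerSeries.X 1 ^ N) : PS k 3) ∈
      maximalIdeal (PS k 3) := by
    rw [mem_maximalIdeal_iff, map_mul, MvPowerSeries.constantCoeff_X, zero_mul]
  have hdim : dimN (PS k 3 ⧸ P) = 2 := by
    rw [hP]
    exact dimN_quot k _ (mul_ne_zero hX0 h1) hm
  unfold LM
  apply iSup₂_le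
  intro a ha
  apply ratio_le (MvPowerSeries.X 0) (MvPowerSeries.X 1) N (PIR k) hN P hP hdim a
  have h2 : Ideal.Quotient.mk P (MvPowerSeries.X 1) ∈ a.radical := by
    rw [ha, ← maximalIdeal_quot]
    apply Ideal.mem_map_of_mem
    rw [mem_maximalIdeal_iff, MvPowerSeries.constantCoeff_X]
  obtain ⟨M, hM⟩ := h2
  refine ⟨M, ?_⟩
  rwa [Ideal.mem_comap, map_pow]

section lower

/-- `(x) + (y, z)^n`. -/
noncomputable def In (n : ℕ) : Ideal (PS k 3) :=
  Ideal.span {MvPowerSeries.X 0} ⊔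
    (Ideal.span {MvPowerSeries.X 1} ⊔ Ideal.span {MvPowerSeries.X 2}) ^ n

theorem yz_mem (n i : ℕ) (hi : i ≤ n) :
    (MvPowerSeries.X 1 ^ i * MvPowerSeries.X 2 ^ (n - i) : PS k 3) ∈ In k n := by
  apply Ideal.mem_sup_right
  obtain ⟨m, rfl⟩ := Nat.exists_eq_add_of_le hi
  rw [Nat.add_sub_cancel_left, pow_add]
  exact Ideal.mul_mem_mul
    (Ideal.pow_mem_pow (Ideal.mem_sup_left (Ideal.mem_span_singleton_self _)) _)
    (Ideal.pow_mem_pow (Ideal.mem_sup_right (Ideal.mem_span_singleton_self _)) _)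

theorem LL_maximal : LL (maximalIdeal (PS k 3)) = 1 := by
  unfold LL
  rw [Module.length_eq_one_iff]
  rw [isSimpleModule_iff_isCoatom]
  exact (maximalIdeal.isMaximal (PS k 3)).out

theorem span_xyz : (Ideal.span {MvPowerSeries.X 0} ⊔ Ideal.span {MvPowerSeries.X 1}) ⊔
    Ideal.span {MvPowerSeries.X 2} = maximalIdeal (PS k 3) := by
  rw [maximalIdeal_eq]
  apply le_antisymm
  · refine sup_le (sup_le ?_ ?_) ?_ <;> rw [Ideal.span_singleton_le_iff_mem] <;>
      exact Ideal.subset_span ⟨_, rfl⟩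
  · rw [Ideal.span_le]
    rintro _ ⟨j, rfl⟩
    fin_cases j
    · exact Ideal.mem_sup_left (Ideal.mem_sup_left (Ideal.mem_span_singleton_self _))
    · exact Ideal.mem_sup_left (Ideal.mem_sup_right (Ideal.mem_span_singleton_self _))
    · exact Ideal.mem_sup_right (Ideal.mem_span_singleton_self _)

theorem two_mul_sum_sub (n : ℕ) : 2 * ∑ r ∈ Finset.range n, (n - r) = n * (n + 1) := by
  have h5 : ∑ r ∈ Finset.range n, (n - r) = ∑ r ∈ Finset.range n, (r + 1) := by
    rw [← Finset.sum_range_reflect]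
    apply Finset.sum_congr rfl
    intro r hr
    rw [Finset.mem_range] at hr
    omega
  have h6 := Finset.sum_range_succ' (fun r => r) n
  rw [h5]
  have h7 := Finset.sum_range_id_mul_two (n + 1)
  simp only [add_zero] at h6
  rw [h6, Nat.add_sub_cancel] at h7
  linarith

theorem LL_In (n : ℕ) : 2 * LL (In k n) ≤ (n * (n + 1) : ℕ) := by
  have h1 := LL_sum_cols (In k n) (MvPowerSeries.X 1) n
  have hc : col (In k n) (MvPowerSeries.X 1 ^ n) = ⊤ := by
    rw [Ideal.eq_top_iff_one, mem_col, mul_one]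
    have := yz_mem k n n le_rfl
    rwa [Nat.sub_self, pow_zero, mul_one] at this
  rw [hc, LL_top, add_zero] at h1
  have h2 : LL (In k n) ≤ ∑ i ∈ Finset.range n, ((n - i : ℕ) : ℕ∞) := by
    rw [h1]
    apply Finset.sum_le_sum
    intro i hi
    rw [Finset.mem_range] at hi
    have h3 := LL_pow_le (Ideal.span {MvPowerSeries.X 0} ⊔ Ideal.span {MvPowerSeries.X 1})
      (MvPowerSeries.X 2 : PS k 3) (n - i)
    rw [span_xyz, LL_maximal, mul_one] at h3
    refine le_trans (LL_anti ?_) h3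
    apply sup_le
    · apply sup_le
      · rw [Ideal.span_singleton_le_iff_mem]
        apply Ideal.mem_sup_left
        rw [mem_col]
        exact Ideal.mul_mem_left _ _ (Ideal.mem_sup_left (Ideal.mem_span_singleton_self _))
      · exact le_sup_right
    · rw [Ideal.span_singleton_le_iff_mem]
      apply Ideal.mem_sup_left
      rw [mem_col]
      exact yz_mem k n i hi.le
  have h3 := two_mul_sum_sub n
  calc 2 * LL (In k n) ≤ 2 * ∑ i ∈ Finset.range n, ((n - i : ℕ) : ℕ∞) := by gcongr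
    _ = ((2 * ∑ r ∈ Finset.range n, (n - r) : ℕ) : ℕ∞) := by push_cast; rfl
    _ = _ := by rw [h3]

/-- The exponents `(0, b, c)`, `b + c < m₀`, and `(1, b, c)`, `b + c < m₁`. -/
def Cond (m₀ m₁ : ℕ) (e : Fin 3 →₀ ℕ) : Prop :=
  (e 0 = 0 ∧ e 1 + e 2 < m₀) ∨ (e 0 = 1 ∧ e 1 + e 2 < m₁ ∧ e 1 + e 2 < m₀)

/-- The series without terms of exponents satisfying `Cond`. -/
noncomputable def VV (m₀ m₁ : ℕ) : Ideal (PS k 3) where
  carrier := {g | ∀ e, Cond m₀ m₁ e → MvPowerSeries.coeff e g = 0}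
  add_mem' := by
    intro f g hf hg e he
    rw [map_add, hf e he, hg e he, add_zero]
  zero_mem' := by
    intro e _
    rw [map_zero]
  smul_mem' := by
    intro s g hg e he
    rw [smul_eq_mul, MvPowerSeries.coeff_mul]
    apply Finset.sum_eq_zero
    intro p hp
    rw [Finset.HasAntidiagonal.mem_antidiagonal] at hp
    rw [hg p.2, mul_zero]
    have h0 : p.1 0 + p.2 0 = e 0 := DFunLike.congr_fun hp 0
    have h1 : p.1 1 + p.2 1 = e 1 := DFunLike.congr_fun hp 1
    have h2 : p.1 2 + p.2 2 = e 2 := DFunLike.congr_fun hp 2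
    unfold Cond at he ⊢
    omega

theorem mem_VV {m₀ m₁ : ℕ} {g : PS k 3} :
    g ∈ VV k m₀ m₁ ↔ ∀ e, Cond m₀ m₁ e → MvPowerSeries.coeff e g = 0 := Iff.rfl

theorem X_mul_mem (i : Fin 3) (m₀ m₁ m₀' m₁' : ℕ) (g : PS k 3) (hg : g ∈ VV k m₀ m₁)
    (h : ∀ e, Cond m₀' m₁' e → Finsupp.single i 1 ≤ e → Cond m₀ m₁ (e - Finsupp.single i 1)) :
    MvPowerSeries.X i * g ∈ VV k m₀' m₁' := by
  intro e he
  rw [MvPowerSeries.X_def, MvPowerSeries.coeff_monomial_mul]
  split_ifs with h1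
  · rw [hg _ (h e he h1), mul_zero]
  · rfl

theorem yz_mul_le (m₀ m₁ : ℕ) :
    (Ideal.span {MvPowerSeries.X 1} ⊔ Ideal.span {MvPowerSeries.X 2}) * VV k m₀ m₁ ≤
      VV k (m₀ + 1) (m₁ + 1) := by
  rw [Ideal.sup_mul]
  apply sup_le
  · rw [Ideal.span_singleton_mul_le_iff]
    intro g hg
    apply X_mul_mem k 1 m₀ m₁ _ _ g hg
    intro e he h1
    have h2 : 1 ≤ e 1 := by simpa using h1 1
    unfold Cond at he ⊢
    simp only [Finsupp.coe_tsub, Pi.sub_apply, Finsupp.single_eq_same, ne_eq, Fin.isValue,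
      zero_ne_one, not_false_eq_true, Finsupp.single_eq_of_ne, tsub_zero,
      show (2 : Fin 3) ≠ 1 by decide]
    omega
  · rw [Ideal.span_singleton_mul_le_iff]
    intro g hg
    apply X_mul_mem k 2 m₀ m₁ _ _ g hg
    intro e he h1
    have h2 : 1 ≤ e 2 := by simpa using h1 2
    unfold Cond at he ⊢
    simp only [Finsupp.coe_tsub, Pi.sub_apply, Finsupp.single_eq_same, ne_eq, Fin.isValue,
      not_false_eq_true, Finsupp.single_eq_of_ne, tsub_zero,
      show (0 : Fin 3) ≠ 2 by decide, show (1 : Fin 3) ≠ 2 by decide]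
    omega

theorem yz_pow_mul_le (n m₀ m₁ : ℕ) :
    (Ideal.span {MvPowerSeries.X 1} ⊔ Ideal.span {MvPowerSeries.X 2}) ^ n * VV k m₀ m₁ ≤
      VV k (m₀ + n) (m₁ + n) := by
  induction n with
  | zero => simp
  | succ n ih =>
    rw [pow_succ', mul_assoc]
    exact (Ideal.mul_mono_right ih).trans (yz_mul_le k _ _)

theorem VV_mono {m₀ m₁ m₀' m₁' : ℕ} (h₀ : m₀' ≤ m₀) (h₁ : m₁' ≤ m₁) :
    VV k m₀ m₁ ≤ VV k m₀' m₁' := by
  intro g hg e he
  apply hg
  unfold Cond at he ⊢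
  omega

theorem In_mul_le (n j : ℕ) : In k n * VV k (n * j) (n * (j - 1)) ≤ VV k (n * (j + 1)) (n * j) := by
  unfold In
  rw [Ideal.sup_mul]
  apply sup_le
  · rw [Ideal.span_singleton_mul_le_iff]
    intro g hg
    apply X_mul_mem k 0 _ _ _ _ g hg
    intro e he h1
    have h2 : 1 ≤ e 0 := by simpa using h1 0
    unfold Cond at he ⊢
    simp only [Finsupp.coe_tsub, Pi.sub_apply, Finsupp.single_eq_same, ne_eq, Fin.isValue,
      not_false_eq_true, Finsupp.single_eq_of_ne, tsub_zero,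
      show (1 : Fin 3) ≠ 0 by decide, show (2 : Fin 3) ≠ 0 by decide]
    omega
  · refine (yz_pow_mul_le k n _ _).trans ?_
    rcases Nat.eq_zero_or_pos j with rfl | hj
    · apply VV_mono <;> simp
    · apply VV_mono
      · rw [mul_add, mul_one]
      · have : n * (j - 1) + n = n * j := by
          obtain ⟨i, rfl⟩ := Nat.exists_eq_add_of_lt hj
          simp
          ring
        rw [this]

theorem In_pow_le (n j : ℕ) : In k n ^ j ≤ VV k (n * j) (n * (j - 1)) := by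
  induction j with
  | zero =>
    intro g _ e he
    unfold Cond at he
    simp at he
  | succ j ih =>
    rw [pow_succ', Nat.add_sub_cancel]
    exact (Ideal.mul_mono_right ih).trans (In_mul_le k n j)

theorem X_sq_mem (m₀ m₁ : ℕ) : (MvPowerSeries.X 0 ^ 2 : PS k 3) ∈ VV k m₀ m₁ := by
  intro e he
  rw [MvPowerSeries.X_pow_eq, MvPowerSeries.coeff_monomial_ne]
  rintro rfl
  unfold Cond at he
  simp at he

/-- The pairs `(b, c)` with `b + c < m`. -/
def TT (m : ℕ) : Finset (Σ _ : ℕ, ℕ) := (Finset.range m).sigma (fun b => Finset.range (m - b))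

theorem card_TT (m : ℕ) : m ^ 2 ≤ 2 * (TT m).card := by
  unfold TT
  rw [Finset.card_sigma]
  simp only [Finset.card_range]
  rw [two_mul_sum_sub]
  nlinarith

/-- The exponent `(a, b, c)`. -/
noncomputable def ex (a b c : ℕ) : Fin 3 →₀ ℕ := Finsupp.equivFunOnFinite.symm ![a, b, c]

/-- The coefficients. -/
noncomputable def PhiC (m₀ m₁ : ℕ) : PS k 3 →ₗ[k] ((TT m₀ ⊕ TT m₁) → k) :=
  LinearMap.pi (fun i => Sum.elim (fun p : TT m₀ => MvPowerSeries.coeff (ex 0 p.1.1 p.1.2))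
    (fun p : TT m₁ => MvPowerSeries.coeff (ex 1 p.1.1 p.1.2)) i)

theorem PhiC_surjective (m₀ m₁ : ℕ) : Function.Surjective (PhiC k m₀ m₁) := by
  classical
  intro t
  let g : PS k 3 := fun e => if e 0 = 0 then
      (if h : (⟨e 1, e 2⟩ : Σ _ : ℕ, ℕ) ∈ TT m₀ then t (Sum.inl ⟨_, h⟩) else 0)
    else (if h : (⟨e 1, e 2⟩ : Σ _ : ℕ, ℕ) ∈ TT m₁ then t (Sum.inr ⟨_, h⟩) else 0)
  refine ⟨g, ?_⟩
  funext i
  rcases i with ⟨⟨b, c⟩, hp⟩ | ⟨⟨b, c⟩, hp⟩
  · change g (ex 0 b c) = _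
    simp only [g, ex]
    simp [hp]
  · change g (ex 1 b c) = _
    simp only [g, ex]
    simp [hp]

theorem VV_le_ker (m₀ m₁ : ℕ) (h : m₁ ≤ m₀) :
    (VV k m₀ m₁).restrictScalars k ≤ LinearMap.ker (PhiC k m₀ m₁) := by
  intro g hg
  rw [LinearMap.mem_ker]
  funext i
  rcases i with ⟨⟨b, c⟩, hp⟩ | ⟨⟨b, c⟩, hp⟩
  · change MvPowerSeries.coeff (ex 0 b c) g = 0
    apply hg
    unfold TT at hp
    rw [Finset.mem_sigma, Finset.mem_range, Finset.mem_range] at hp
    left
    simp only [ex, Finsupp.equivFunOnFinite_symm_apply_apply, Matrix.cons_val_zero,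
      Matrix.cons_val_one, Matrix.cons_val]
    refine ⟨trivial, ?_⟩
    simp only at hp
    omega
  · change MvPowerSeries.coeff (ex 1 b c) g = 0
    apply hg
    unfold TT at hp
    rw [Finset.mem_sigma, Finset.mem_range, Finset.mem_range] at hp
    right
    simp only [ex, Finsupp.equivFunOnFinite_symm_apply_apply, Matrix.cons_val_zero,
      Matrix.cons_val_one, Matrix.cons_val]
    simp only at hp
    refine ⟨trivial, ?_, ?_⟩ <;> omega

theorem residue_surj_k (s : PS k 3) :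
    ∃ r : k, s - algebraMap k (PS k 3) r ∈ maximalIdeal (PS k 3) := by
  refine ⟨MvPowerSeries.constantCoeff s, ?_⟩
  rw [mem_maximalIdeal_iff, map_sub, MvPowerSeries.algebraMap_apply, MvPowerSeries.constantCoeff_C]
  simp

theorem LL_VV (m₀ m₁ : ℕ) (h : m₁ ≤ m₀) :
    ((m₀ ^ 2 + m₁ ^ 2 : ℕ) : ℕ∞) ≤ 2 * LL (VV k m₀ m₁) := by
  unfold LL
  rw [← length_eq (residue_surj_k k)]
  have e1 := Submodule.Quotient.restrictScalarsEquiv k (VV k m₀ m₁)
  rw [← e1.length_eq]
  have h1 := Module.length_le_of_surjective (((VV k m₀ m₁).restrictScalars k).liftQ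
    (PhiC k m₀ m₁) (VV_le_ker k m₀ m₁ h)) (by
      rw [← LinearMap.range_eq_top, Submodule.range_liftQ, LinearMap.range_eq_top]
      exact PhiC_surjective k m₀ m₁)
  rw [Module.length_eq_finrank, Module.finrank_pi, Fintype.card_sum, Fintype.card_coe,
    Fintype.card_coe] at h1
  have h2 := card_TT m₀
  have h3 := card_TT m₁
  calc ((m₀ ^ 2 + m₁ ^ 2 : ℕ) : ℕ∞) ≤ ((2 * ((TT m₀).card + (TT m₁).card) : ℕ) : ℕ∞) := by
        exact_mod_cast (by omega)
    _ = 2 * (((TT m₀).card + (TT m₁).card : ℕ) : ℕ∞) := by push_cast; rfl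
    _ ≤ _ := by gcongr

end lower

end Pool.Agent.V113.Lech
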