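import Pool.Agent.V113.Lech.Ex

set_option autoImplicit false

open Filter ENNReal IsLocalRing

namespace Pool.Agent.V113.Lech

universe u

variable (k : Type u) [Field k]

theorem nat_div_lt {a b c d : ℕ} (hb : b ≠ 0) (hd : d ≠ 0) (h : a * d < c * b) :
    (a : ℝ≥0∞) / b < (c : ℝ≥0∞) / d := by
  have hb0 : (b : ℝ≥0∞) ≠ 0 := by exact_mod_cast hb
  have hd0 : (d : ℝ≥0∞) ≠ 0 := by exact_mod_cast hd
  rw [ENNReal.div_lt_iff (Or.inl hb0) (Or.inl (natCast_ne_top _)), ← ENNReal.mul_div_right_comm,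
    ENNReal.lt_div_iff_mul_lt (Or.inl hd0) (Or.inl (natCast_ne_top _))]
  exact_mod_cast h

variable (P : Ideal (PS k 3)) (hP : P = Ideal.span {MvPowerSeries.X 0 ^ 2})

/-- The image of `(x) + (y, z)^n`. -/
noncomputable def an (n : ℕ) : Ideal (PS k 3 ⧸ P) := (In k n).map (Ideal.Quotient.mk P)

include hP in
theorem comap_an (n : ℕ) : (an k P n).comap (Ideal.Quotient.mk P) = In k n := by
  unfold an
  rw [Ideal.comap_map_of_surjective _ Ideal.Quotient.mk_surjective]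
  apply sup_eq_left.2
  have h1 : Ideal.comap (Ideal.Quotient.mk P) ⊥ = P := Ideal.mk_ker
  rw [h1, hP, Ideal.span_singleton_le_iff_mem, pow_two]
  exact Ideal.mul_mem_left _ _ (Ideal.mem_sup_left (Ideal.mem_span_singleton_self _))

include hP in
theorem len_an_pow (n j : ℕ) :
    (((n * j) ^ 2 + (n * (j - 1)) ^ 2 : ℕ) : ℝ≥0∞) ≤ 2 * len (an k P n ^ j) := by
  rw [len_quot_pow, comap_an k P hP]
  have h1 : In k n ^ j ⊔ P ≤ VV k (n * j) (n * (j - 1)) := by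
    apply sup_le (In_pow_le k n j)
    rw [hP, Ideal.span_singleton_le_iff_mem]
    exact X_sq_mem k _ _
  have h2 := LL_VV k (n * j) (n * (j - 1)) (Nat.mul_le_mul_left _ (Nat.sub_le _ _))
  have h3 : (((n * j) ^ 2 + (n * (j - 1)) ^ 2 : ℕ) : ℕ∞) ≤ 2 * LL (In k n ^ j ⊔ P) :=
    h2.trans (by gcongr; exact LL_anti h1)
  have h4 := ENat.toENNReal_le.2 h3
  simpa using h4

include hP in
theorem len_an (n : ℕ) : 2 * len (an k P n) ≤ ((n * (n + 1) : ℕ) : ℝ≥0∞) := by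
  have h1 := len_quot_pow P (an k P n) 1
  have h2 : P ≤ In k n := by
    rw [hP, Ideal.span_singleton_le_iff_mem, pow_two]
    exact Ideal.mul_mem_left _ _ (Ideal.mem_sup_left (Ideal.mem_span_singleton_self _))
  rw [comap_an k P hP, pow_one (In k n), sup_eq_left.2 h2] at h1
  have h0 : len (an k P n) = ((LL (In k n) : ℕ∞) : ℝ≥0∞) :=
    (congrArg len (pow_one (an k P n)).symm).trans h1
  rw [h0]
  have h4 := ENat.toENNReal_le.2 (LL_In k n)
  simpa using h4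

include hP in
theorem mult_an (hdim : dimN (PS k 3 ⧸ P) = 2) (n : ℕ) :
    ((2 * n ^ 2 : ℕ) : ℝ≥0∞) ≤ mult (an k P n) := by
  have h1 : ∀ j : ℕ, j ≠ 0 → ((2 * n ^ 2 : ℕ) : ℝ≥0∞) - ((2 * n ^ 2 : ℕ) : ℝ≥0∞) / j ≤
      2 * len (an k P n ^ j) / (j : ℝ≥0∞) ^ 2 := by
    intro j hj
    have hj0 : (j : ℝ≥0∞) ≠ 0 := by exact_mod_cast hj
    have hjt : (j : ℝ≥0∞) ≠ ⊤ := natCast_ne_top _
    rw [tsub_le_iff_right]
    have h2 := len_an_pow k P hP n j
    have h3 : ((2 * n ^ 2 : ℕ) : ℝ≥0∞) ≤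
        (((n * j) ^ 2 + (n * (j - 1)) ^ 2 : ℕ) : ℝ≥0∞) / (j : ℝ≥0∞) ^ 2 +
        ((2 * n ^ 2 : ℕ) : ℝ≥0∞) / j := by
      have h4 : ((2 * n ^ 2 : ℕ) : ℝ≥0∞) / j = (((2 * n ^ 2 * j : ℕ) : ℝ≥0∞)) / (j : ℝ≥0∞) ^ 2 := by
        rw [Nat.cast_mul (2 * n ^ 2) j, pow_two (j : ℝ≥0∞), ENNReal.mul_div_mul_right _ _ hj0 hjt]
      rw [h4, ← ENNReal.add_div, ENNReal.le_div_iff_mul_le (Or.inl (pow_ne_zero _ hj0))
        (Or.inl (pow_ne_top hjt))]
      have h5 : 2 * n ^ 2 * j ^ 2 ≤ ((n * j) ^ 2 + (n * (j - 1)) ^ 2) + 2 * n ^ 2 * j := by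
        obtain ⟨i, rfl⟩ := Nat.exists_eq_succ_of_ne_zero hj
        rw [Nat.succ_sub_one, Nat.succ_eq_add_one]
        have : (i + 1) ^ 2 * 2 ≤ (i + 1) ^ 2 + i ^ 2 + 2 * (i + 1) := by nlinarith
        calc 2 * n ^ 2 * (i + 1) ^ 2 = n ^ 2 * ((i + 1) ^ 2 * 2) := by ring
          _ ≤ n ^ 2 * ((i + 1) ^ 2 + i ^ 2 + 2 * (i + 1)) := Nat.mul_le_mul_left _ this
          _ = _ := by ring
      exact_mod_cast h5
    exact h3.trans (by gcongr)
  have h2 : Tendsto (fun j : ℕ => ((2 * n ^ 2 : ℕ) : ℝ≥0∞) - ((2 * n ^ 2 : ℕ) : ℝ≥0∞) / j) atTop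
      (nhds (((2 * n ^ 2 : ℕ) : ℝ≥0∞) - 0)) := by
    apply ENNReal.Tendsto.sub tendsto_const_nhds _ (Or.inl (natCast_ne_top _))
    have := ENNReal.Tendsto.const_div (m := fun n : ℕ => (n : ℝ≥0∞)) (a := ((2 * n ^ 2 : ℕ) : ℝ≥0∞))
      ENNReal.tendsto_nat_nhds_top (Or.inr (natCast_ne_top _))
    rwa [ENNReal.div_top] at this
  rw [tsub_zero] at h2
  rw [← h2.limsup_eq]
  unfold mult
  rw [hdim]
  apply limsup_le_limsup
  · filter_upwards [eventually_ne_atTop 0] with j hj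
    simpa using h1 j hj
  · isBoundedDefault
  · isBoundedDefault

include hP in
theorem le_LM [IsLocalRing (PS k 3 ⧸ P)] (n : ℕ) (hn : 1 ≤ n) :
    ((2 * n ^ 2 : ℕ) : ℝ≥0∞) / ((n * (n + 1) : ℕ) : ℝ≥0∞) ≤ LM (PS k 3 ⧸ P) := by
  have hdim : dimN (PS k 3 ⧸ P) = 2 := by
    rw [hP]
    apply dimN_quot k _ (pow_ne_zero _ (X0_ne_zero k))
    rw [mem_maximalIdeal_iff, map_pow, MvPowerSeries.constantCoeff_X]
    simp
  have hIn : In k n ≤ maximalIdeal (PS k 3) := by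
    unfold In
    rw [← span_xyz]
    apply sup_le (le_sup_left.trans le_sup_left)
    refine (Ideal.pow_le_self (by omega)).trans ?_
    exact sup_le (le_sup_right.trans le_sup_left) le_sup_right
  have hrad : (an k P n).radical = maximalIdeal (PS k 3 ⧸ P) := by
    apply le_antisymm
    · apply (maximalIdeal.isMaximal (PS k 3 ⧸ P)).isPrime.radical_le_iff.2
      rw [← maximalIdeal_quot]
      exact Ideal.map_mono hIn
    · rw [← maximalIdeal_quot, maximalIdeal_eq, Ideal.map_span, Ideal.span_le]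
      rintro _ ⟨_, ⟨j, rfl⟩, rfl⟩
      refine ⟨n, ?_⟩
      rw [← map_pow]
      apply Ideal.mem_map_of_mem
      fin_cases j
      · apply Ideal.mem_sup_left
        rw [Ideal.mem_span_singleton]
        exact dvd_pow_self _ (by omega)
      · exact Ideal.mem_sup_right (Ideal.pow_mem_pow (Ideal.mem_sup_left
          (Ideal.mem_span_singleton_self _)) _)
      · exact Ideal.mem_sup_right (Ideal.pow_mem_pow (Ideal.mem_sup_right
          (Ideal.mem_span_singleton_self _)) _)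
  refine le_trans ?_ (le_iSup₂_of_le (an k P n) hrad le_rfl)
  unfold ratio
  rw [hdim]
  apply ENNReal.div_le_div (mult_an k P hP hdim n)
  simpa using len_an k P hP n

/-- The main comparison. -/
theorem main (N : ℕ) (hN : 1 ≤ N) (P Q : Ideal (PS k 3))
    (hP : P = Ideal.span {MvPowerSeries.X 0 ^ 2})
    (hQ : Q = Ideal.span {MvPowerSeries.X 0 ^ 2 + MvPowerSeries.X 0 * MvPowerSeries.X 1 ^ N})
    [IsLocalRing (PS k 3 ⧸ P)] [IsLocalRing (PS k 3 ⧸ Q)] :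
    LM (PS k 3 ⧸ Q) < LM (PS k 3 ⧸ P) := by
  have hQ' : Q = Ideal.span {MvPowerSeries.X 0 * (MvPowerSeries.X 0 + MvPowerSeries.X 1 ^ N)} := by
    rw [hQ]
    congr 2
    ring
  refine (LM_le k N hN Q hQ').trans_lt (lt_of_lt_of_le ?_ (le_LM k P hP (4 * N) (by omega)))
  apply nat_div_lt
  · omega
  · positivity
  · obtain ⟨M, rfl⟩ := Nat.exists_eq_succ_of_ne_zero (by omega : N ≠ 0)
    have : 4 * (M + 1) - 1 = 4 * M + 3 := by omega
    rw [Nat.succ_eq_add_one, this]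
    ring_nf
    nlinarith

theorem bounds (N : ℕ) (hN : 1 ≤ N) :
    ∃ g ∈ maximalIdeal (PS k 3) ^ N,
      ∃ (_ : IsLocalRing (PS k 3 ⧸ Ideal.span {(MvPowerSeries.X 0 ^ 2 : PS k 3)}))
        (_ : IsLocalRing (PS k 3 ⧸ Ideal.span {(MvPowerSeries.X 0 ^ 2 + g : PS k 3)})),
        LM (PS k 3 ⧸ Ideal.span {(MvPowerSeries.X 0 ^ 2 + g : PS k 3)}) <
          LM (PS k 3 ⧸ Ideal.span {(MvPowerSeries.X 0 ^ 2 : PS k 3)}) := by
  have hmem : ∀ f : PS k 3, f ∈ maximalIdeal (PS k 3) → Ideal.span {f} ≠ ⊤ := by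
    intro f hf h
    have : Ideal.span {f} ≤ maximalIdeal (PS k 3) := by
      rwa [Ideal.span_singleton_le_iff_mem]
    rw [h, top_le_iff] at this
    exact (maximalIdeal.isMaximal (PS k 3)).ne_top this
  have hx : (MvPowerSeries.X 0 : PS k 3) ∈ maximalIdeal (PS k 3) := by
    rw [mem_maximalIdeal_iff, MvPowerSeries.constantCoeff_X]
  have hy : (MvPowerSeries.X 1 : PS k 3) ∈ maximalIdeal (PS k 3) := by
    rw [mem_maximalIdeal_iff, MvPowerSeries.constantCoeff_X]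
  have hx2 : (MvPowerSeries.X 0 ^ 2 : PS k 3) ∈ maximalIdeal (PS k 3) := by
    rw [pow_two]
    exact Ideal.mul_mem_left _ _ hx
  have hg : (MvPowerSeries.X 0 * MvPowerSeries.X 1 ^ N : PS k 3) ∈ maximalIdeal (PS k 3) :=
    Ideal.mul_mem_right _ _ hx
  have i1 := isLocalRing_quot k 3 _ (hmem _ hx2)
  have i2 := isLocalRing_quot k 3 _ (hmem _ (Ideal.add_mem _ hx2 hg))
  exact ⟨_, Ideal.mul_mem_left _ _ (Ideal.pow_mem_pow hy N), i1, i2, main k N hN _ _ rfl rfl⟩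

end Pool.Agent.V113.Lech
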