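import Pool.Agent.V113.Lech.Length

set_option autoImplicit false

open PowerSeries

namespace Pool.Agent.V113.Lech

universe u v

section expand

variable {R : Type u} [CommRing R] (v : ℕ) (hv : v ≠ 0)

/-- The `i`-th component in the decomposition of `R[[T]]` over `R[[T^v]]`. -/
noncomputable def dec (i : ℕ) : R⟦X⟧ →ₗ[R] R⟦X⟧ where
  toFun g := PowerSeries.mk (fun q => coeff (v * q + i) g)
  map_add' f g := by
    ext n
    simp
  map_smul' r f := by
    ext n
    simp

theorem coeff_dec (i q : ℕ) (g : R⟦X⟧) : coeff q (dec v i g) = coeff (v * q + i) g := by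
  simp [dec]

/-- The map `(f_i) ↦ ∑ T^i f_i(T^v)`. -/
noncomputable def asm (f : Fin v → R⟦X⟧) : R⟦X⟧ := ∑ i : Fin v, X ^ (i : ℕ) * expand v hv (f i)

theorem coeff_asm (f : Fin v → R⟦X⟧) (j : Fin v) (q : ℕ) :
    coeff (v * q + j) (asm v hv f) = coeff q (f j) := by
  unfold asm
  rw [map_sum, Finset.sum_eq_single j]
  · rw [coeff_X_pow_mul', if_pos (by omega), Nat.add_sub_cancel, coeff_expand_mul]
  · intro i _ hij
    rw [coeff_X_pow_mul']
    split_ifs with h
    · apply coeff_expand_of_not_dvd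
      rintro ⟨c, hc⟩
      apply hij
      apply Fin.ext
      have hi := i.2
      have hj := j.2
      have h1 : v * q + j = v * c + i := by omega
      have h2 : (v * q + j) % v = (v * c + i) % v := by rw [h1]
      rw [Nat.mul_add_mod, Nat.mul_add_mod, Nat.mod_eq_of_lt hj, Nat.mod_eq_of_lt hi] at h2
      exact h2.symm
    · rfl
  · intro h
    exact absurd (Finset.mem_univ j) h

theorem dec_asm (f : Fin v → R⟦X⟧) (j : Fin v) : dec v j (asm v hv f) = f j := by
  ext q
  rw [coeff_dec, coeff_asm]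

theorem asm_dec (g : R⟦X⟧) : asm v hv (fun i => dec v i g) = g := by
  ext n
  have h1 : n = v * (n / v) + ((⟨n % v, Nat.mod_lt _ (Nat.pos_of_ne_zero hv)⟩ : Fin v) : ℕ) :=
    (Nat.div_add_mod n v).symm
  rw [h1, coeff_asm, coeff_dec]

theorem asm_mul (f : Fin v → R⟦X⟧) (g : R⟦X⟧) :
    asm v hv (fun i => f i * g) = asm v hv f * expand v hv g := by
  unfold asm
  rw [Finset.sum_mul]
  apply Finset.sum_congr rfl
  intro i _
  rw [map_mul, mul_assoc]

theorem dec_mul_expand (j : Fin v) (s g : R⟦X⟧) : dec v j (s * expand v hv g) = dec v j s * g := by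
  conv_lhs => rw [← asm_dec v hv s]
  rw [← asm_mul, dec_asm]

theorem mem_map_expand_iff (J : Ideal R⟦X⟧) (g : R⟦X⟧) :
    g ∈ J.map (expand v hv : R⟦X⟧ →ₐ[R] R⟦X⟧) ↔ ∀ i : Fin v, dec v i g ∈ J := by
  constructor
  · intro hg
    let K : Ideal R⟦X⟧ :=
      { carrier := {g | ∀ i : Fin v, dec v i g ∈ J}
        add_mem' := by
          intro a b ha hb i
          rw [map_add]
          exact J.add_mem (ha i) (hb i)
        zero_mem' := by
          intro i
          rw [map_zero]
          exact J.zero_mem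
        smul_mem' := by
          intro s g hg i
          rw [← asm_dec v hv g, smul_eq_mul]
          unfold asm
          rw [Finset.mul_sum, map_sum]
          apply J.sum_mem
          intro j _
          rw [← mul_assoc, dec_mul_expand]
          exact J.mul_mem_left _ (hg j) }
    have h1 : J.map (expand v hv : R⟦X⟧ →ₐ[R] R⟦X⟧) ≤ K := by
      rw [Ideal.map_le_iff_le_comap]
      intro f hf i
      have := dec_mul_expand v hv i 1 f
      rw [one_mul] at this
      rw [this]
      exact J.mul_mem_left _ hf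
    exact h1 hg
  · intro h
    rw [← asm_dec v hv g]
    unfold asm
    apply Ideal.sum_mem
    intro i _
    exact Ideal.mul_mem_left _ _ (Ideal.mem_map_of_mem _ (h i))

/-- The components modulo `J`. -/
noncomputable def decQ (J : Ideal R⟦X⟧) : R⟦X⟧ →ₗ[R] (Fin v → R⟦X⟧ ⧸ J) :=
  LinearMap.pi (fun i => ((Ideal.Quotient.mkₐ R J).toLinearMap) ∘ₗ dec v i)

theorem decQ_surjective (J : Ideal R⟦X⟧) (hv : v ≠ 0) : Function.Surjective (decQ v J) := by
  intro y
  choose f hf using fun i => Ideal.Quotient.mk_surjective (y i)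
  refine ⟨asm v hv f, ?_⟩
  funext i
  rw [← hf i]
  simp [decQ, dec_asm]

theorem ker_decQ (J : Ideal R⟦X⟧) :
    LinearMap.ker (decQ v J) =
      (J.map (expand v hv : R⟦X⟧ →ₐ[R] R⟦X⟧)).restrictScalars R := by
  ext g
  rw [LinearMap.mem_ker, Submodule.restrictScalars_mem, mem_map_expand_iff]
  constructor
  · intro h i
    have h1 := congrFun h i
    exact Ideal.Quotient.eq_zero_iff_mem.1 h1
  · intro h
    funext i
    exact Ideal.Quotient.eq_zero_iff_mem.2 (h i)

theorem length_map_expand_R (J : Ideal R⟦X⟧) :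
    Module.length R (R⟦X⟧ ⧸ J.map (expand v hv : R⟦X⟧ →ₐ[R] R⟦X⟧)) =
      v * Module.length R (R⟦X⟧ ⧸ J) := by
  have e1 := (decQ v J).quotKerEquivOfSurjective (decQ_surjective v J hv)
  rw [ker_decQ v hv] at e1
  have e2 := Submodule.Quotient.restrictScalarsEquiv R (J.map (expand v hv : R⟦X⟧ →ₐ[R] R⟦X⟧))
  rw [← (e2.symm.trans e1).symm.length_eq, Module.length_pi_of_fintype]
  simp

end expand

end Pool.Agent.V113.Lech
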