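import Pool.Agent.V113.Lech.Defs
import Pool.Agent.V113.Lech.Expand

set_option autoImplicit false

open Filter ENNReal PowerSeries

namespace Pool.Agent.V113.Lech

universe u

section general

variable {S : Type u} [CommRing S]

theorem len_anti {I J : Ideal S} (h : I ≤ J) : len J ≤ len I := by
  unfold len
  have h1 : Module.length S (S ⧸ J) ≤ Module.length S (S ⧸ I) :=
    Module.length_le_of_surjective (Submodule.factor h) (Submodule.factor_surjective h)
  exact_mod_cast h1

theorem mult_anti {I J : Ideal S} (h : I ≤ J) : mult J ≤ mult I := by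
  unfold mult
  apply limsup_le_limsup
  · apply Eventually.of_forall
    intro k
    exact ENNReal.div_le_div_right (mul_le_mul_right (len_anti (Ideal.pow_right_mono h k)) _) _
  · isBoundedDefault
  · isBoundedDefault

theorem len_inf_le (I J : Ideal S) : len (I ⊓ J) ≤ len I + len J := by
  unfold len
  have h1 : Module.length S (S ⧸ (I ⊓ J)) ≤ Module.length S ((S ⧸ I) × (S ⧸ J)) := by
    let f : S →ₗ[S] (S ⧸ I) × (S ⧸ J) := LinearMap.prod (Submodule.mkQ I) (Submodule.mkQ J)
    have hf : LinearMap.ker f = I ⊓ J := by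
      rw [LinearMap.ker_prod, Submodule.ker_mkQ, Submodule.ker_mkQ]
    have h2 := Module.length_le_of_injective ((LinearMap.ker f).liftQ f le_rfl) (by
      rw [← LinearMap.ker_eq_bot, Submodule.ker_liftQ_eq_bot _ _ _ le_rfl])
    rwa [hf] at h2
  rw [Module.length_prod] at h1
  exact_mod_cast h1

theorem len_ne_zero {I : Ideal S} (h : I ≠ ⊤) : len I ≠ 0 := by
  unfold len
  have h1 : Nontrivial (S ⧸ I) := Ideal.Quotient.nontrivial_iff.2 h
  have h2 : Module.length S (S ⧸ I) ≠ 0 := Module.length_pos.ne'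
  exact_mod_cast h2

theorem len_pow_ne_top [IsLocalRing S] [IsNoetherianRing S] (N : ℕ) :
    len (IsLocalRing.maximalIdeal S ^ N) ≠ ⊤ := by
  unfold len
  have h1 : Module.length S (S ⧸ IsLocalRing.maximalIdeal S ^ N) ≠ ⊤ := by
    rcases Nat.eq_zero_or_pos N with rfl | hN
    · rw [pow_zero, Ideal.one_eq_top, Module.length_eq_zero]
      simp
    · rw [Module.length_eq_of_surjective (S := S) (R := S ⧸ IsLocalRing.maximalIdeal S ^ N)
        Ideal.Quotient.mk_surjective]
      have h0 : IsLocalRing.maximalIdeal S ^ N ≠ ⊤ := by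
        intro h
        have h2 : (IsLocalRing.maximalIdeal S) ^ N ≤ IsLocalRing.maximalIdeal S :=
          Ideal.pow_le_self hN.ne'
        rw [h, top_le_iff] at h2
        exact (IsLocalRing.maximalIdeal.isMaximal S).ne_top h2
      have : Nontrivial (S ⧸ IsLocalRing.maximalIdeal S ^ N) := Ideal.Quotient.nontrivial_iff.2 h0
      have : IsLocalRing (S ⧸ IsLocalRing.maximalIdeal S ^ N) :=
        IsLocalRing.of_surjective' (Ideal.Quotient.mk _) Ideal.Quotient.mk_surjective
      have : IsArtinianRing (S ⧸ IsLocalRing.maximalIdeal S ^ N) := by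
        rw [isArtinianRing_iff_isNilpotent_maximalIdeal]
        refine ⟨N, ?_⟩
        rw [← IsLocalRing.map_maximalIdeal_of_surjective (Ideal.Quotient.mk _)
          Ideal.Quotient.mk_surjective, ← Ideal.map_pow, Ideal.map_quotient_self]
        rfl
      exact Module.length_ne_top
  exact_mod_cast h1

end general

section local_

variable {R : Type u} [CommRing R] [IsLocalRing R]

theorem residue_surj (s : R⟦X⟧) :
    ∃ r : R, s - algebraMap R R⟦X⟧ r ∈ IsLocalRing.maximalIdeal R⟦X⟧ := by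
  refine ⟨constantCoeff s, ?_⟩
  rw [IsLocalRing.mem_maximalIdeal, mem_nonunits_iff, isUnit_iff_constantCoeff, map_sub]
  simp

theorem length_map_expand (v : ℕ) (hv : v ≠ 0) (J : Ideal R⟦X⟧) :
    Module.length R⟦X⟧ (R⟦X⟧ ⧸ J.map (expand v hv : R⟦X⟧ →ₐ[R] R⟦X⟧)) =
      v * Module.length R⟦X⟧ (R⟦X⟧ ⧸ J) := by
  rw [← length_eq (R := R) residue_surj, ← length_eq (R := R) residue_surj, length_map_expand_R]

theorem len_map_expand (v : ℕ) (hv : v ≠ 0) (J : Ideal R⟦X⟧) :
    len (J.map (expand v hv : R⟦X⟧ →ₐ[R] R⟦X⟧)) = v * len J := by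
  unfold len
  rw [length_map_expand]
  push_cast
  rfl

theorem mult_map_expand (v : ℕ) (hv : v ≠ 0) (J : Ideal R⟦X⟧) :
    mult (J.map (expand v hv : R⟦X⟧ →ₐ[R] R⟦X⟧)) = v * mult J := by
  unfold mult
  rw [← ENNReal.limsup_const_mul_of_ne_top (natCast_ne_top v)]
  congr 1
  funext k
  rw [← Ideal.map_pow, len_map_expand, mul_left_comm, mul_div_assoc]

theorem radical_map_expand (v : ℕ) (hv : v ≠ 0) (J : Ideal R⟦X⟧)
    (hJ : J.radical = IsLocalRing.maximalIdeal R⟦X⟧) :
    (J.map (expand v hv : R⟦X⟧ →ₐ[R] R⟦X⟧)).radical = IsLocalRing.maximalIdeal R⟦X⟧ := by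
  apply le_antisymm
  · apply (IsLocalRing.maximalIdeal.isMaximal R⟦X⟧).isPrime.radical_le_iff.2
    rw [Ideal.map_le_iff_le_comap]
    intro f hf
    rw [Ideal.mem_comap, IsLocalRing.mem_maximalIdeal, mem_nonunits_iff, isUnit_iff_constantCoeff,
      constantCoeff_expand, ← isUnit_iff_constantCoeff, ← mem_nonunits_iff,
      ← IsLocalRing.mem_maximalIdeal, ← hJ]
    exact Ideal.le_radical hf
  · intro f hf
    have hf0 : ¬ IsUnit (constantCoeff f) := by
      rwa [IsLocalRing.mem_maximalIdeal, mem_nonunits_iff, isUnit_iff_constantCoeff] at hf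
    have hX : (X : R⟦X⟧) ∈ J.radical := by
      rw [hJ, IsLocalRing.mem_maximalIdeal, mem_nonunits_iff, isUnit_iff_constantCoeff]
      simp
    have hC : C (constantCoeff f) ∈ J.radical := by
      rw [hJ, IsLocalRing.mem_maximalIdeal, mem_nonunits_iff, isUnit_iff_constantCoeff]
      simpa using hf0
    have hX' : (X : R⟦X⟧) ∈ (J.map (expand v hv : R⟦X⟧ →ₐ[R] R⟦X⟧)).radical := by
      obtain ⟨n, hn⟩ := hX
      refine ⟨v * n, ?_⟩
      have := Ideal.mem_map_of_mem (expand v hv : R⟦X⟧ →ₐ[R] R⟦X⟧) hn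
      rwa [map_pow, expand_X, ← pow_mul] at this
    have hC' : C (constantCoeff f) ∈ (J.map (expand v hv : R⟦X⟧ →ₐ[R] R⟦X⟧)).radical := by
      obtain ⟨n, hn⟩ := hC
      refine ⟨n, ?_⟩
      have := Ideal.mem_map_of_mem (expand v hv : R⟦X⟧ →ₐ[R] R⟦X⟧) hn
      rwa [map_pow, expand_C] at this
    have h1 : f = X * PowerSeries.mk (fun p => coeff (p + 1) f) + C (constantCoeff f) :=
      eq_X_mul_shift_add_const f
    rw [h1]
    exact Ideal.add_mem _ (Ideal.mul_mem_right _ _ hX') hC'

theorem ratio_le_LN [IsNoetherianRing R] (J : Ideal R⟦X⟧)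
    (hJ : J.radical = IsLocalRing.maximalIdeal R⟦X⟧) (N : ℕ) : ratio J ≤ LN R N := by
  set D : ℝ≥0∞ := ((dimN R⟦X⟧).factorial : ℝ≥0∞) with hD
  have hD0 : D ≠ 0 := by
    rw [hD]
    exact_mod_cast Nat.factorial_ne_zero _
  have hDt : D ≠ ⊤ := natCast_ne_top _
  set C := len (IsLocalRing.maximalIdeal R⟦X⟧ ^ N) with hC
  have hCt : C ≠ ⊤ := len_pow_ne_top N
  by_cases hlen : len J = ⊤
  · unfold ratio
    rw [hlen, ENNReal.mul_top hD0, ENNReal.div_top]
    exact bot_le
  by_cases hL : LN R N = ⊤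
  · rw [hL]
    exact le_top
  have hJtop : J ≠ ⊤ := by
    intro h
    rw [h, Ideal.radical_top] at hJ
    exact (IsLocalRing.maximalIdeal.isMaximal R⟦X⟧).ne_top hJ.symm
  have hlen0 : len J ≠ 0 := len_ne_zero hJtop
  have h1 : ∀ v : ℕ, v ≠ 0 → mult J ≤ LN R N * (D * (len J + C / v)) := by
    intro v hv
    have hv0 : (v : ℝ≥0∞) ≠ 0 := by exact_mod_cast hv
    have hvt : (v : ℝ≥0∞) ≠ ⊤ := natCast_ne_top _
    set I := J.map (expand v hv : R⟦X⟧ →ₐ[R] R⟦X⟧) ⊓ IsLocalRing.maximalIdeal R⟦X⟧ ^ N with hI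
    have hIrad : I.radical = IsLocalRing.maximalIdeal R⟦X⟧ := by
      rw [hI, Ideal.radical_inf, radical_map_expand v hv J hJ]
      apply inf_eq_left.2
      rcases Nat.eq_zero_or_pos N with rfl | hN
      · rw [pow_zero, Ideal.one_eq_top, Ideal.radical_top]
        exact le_top
      · rw [Ideal.radical_pow _ hN.ne']
        exact Ideal.le_radical
    have h2 : ratio I ≤ LN R N := by
      unfold LN
      exact le_iSup₂_of_le I ⟨hIrad, inf_le_right⟩ le_rfl
    have h3 : (v : ℝ≥0∞) * mult J ≤ mult I := by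
      rw [← mult_map_expand v hv]
      exact mult_anti inf_le_left
    have h4 : len I ≤ v * len J + C := by
      rw [← len_map_expand v hv]
      exact len_inf_le _ _
    have h5 : (v : ℝ≥0∞) * mult J / (D * (v * len J + C)) ≤ LN R N := by
      refine le_trans ?_ h2
      unfold ratio
      exact ENNReal.div_le_div h3 (mul_le_mul_right h4 _)
    rw [ENNReal.div_le_iff_le_mul] at h5
    · have h6 : (v : ℝ≥0∞) * (LN R N * (D * (len J + C / v))) =
          LN R N * (D * (v * len J + C)) := by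
        rw [show (v : ℝ≥0∞) * (LN R N * (D * (len J + C / v))) =
          LN R N * (D * (v * len J + v * (C / v))) by ring, ENNReal.mul_div_cancel hv0 hvt]
      rw [← h6] at h5
      exact (ENNReal.mul_le_mul_iff_right hv0 hvt).1 h5
    · left
      apply mul_ne_zero hD0
      intro h
      rw [add_eq_zero] at h
      exact mul_ne_zero hv0 hlen0 h.1
    · left
      exact ENNReal.mul_ne_top hDt (ENNReal.add_ne_top.2 ⟨ENNReal.mul_ne_top hvt hlen, hCt⟩)
  have h2 : Tendsto (fun v : ℕ => LN R N * (D * (len J + C / v))) atTop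
      (nhds (LN R N * (D * (len J + 0)))) := by
    have h3 : Tendsto (fun v : ℕ => C / (v : ℝ≥0∞)) atTop (nhds 0) := by
      have := ENNReal.Tendsto.const_div (m := fun n : ℕ => (n : ℝ≥0∞))
        ENNReal.tendsto_nat_nhds_top (Or.inr hCt)
      rwa [ENNReal.div_top] at this
    apply ENNReal.Tendsto.const_mul _ (Or.inr hL)
    apply ENNReal.Tendsto.const_mul _ (Or.inr hDt)
    exact h3.const_add _
  have h3 : mult J ≤ LN R N * (D * (len J + 0)) := by
    apply ge_of_tendsto h2
    filter_upwards [eventually_ne_atTop 0] with v hv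
    exact h1 v hv
  rw [add_zero] at h3
  exact ENNReal.div_le_of_le_mul h3

theorem LN_eq [IsNoetherianRing R] (N : ℕ) : LN R N = LM R⟦X⟧ := by
  apply le_antisymm
  · unfold LN LM
    apply iSup_mono
    intro I
    apply iSup_le
    intro h
    exact le_iSup_of_le h.1 le_rfl
  · unfold LM
    apply iSup₂_le
    intro J hJ
    exact ratio_le_LN J hJ N

end local_

end Pool.Agent.V113.Lech
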