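import Mathlib

set_option autoImplicit false

open IsLocalRing

namespace Pool.Agent.V113.Lech

universe u

variable (k : Type u) [Field k]

/-- `k[[x_0, …, x_{n-1}]]`. -/
abbrev PS (n : ℕ) : Type u := MvPowerSeries (Fin n) k

theorem mem_span_X (n : ℕ) (f : PS k n) (hf : MvPowerSeries.constantCoeff f = 0) :
    f ∈ Ideal.span (Set.range (MvPowerSeries.X : Fin n → PS k n)) := by
  induction n with
  | zero =>
    have h1 : MvPowerSeries.isEmptyEquiv (Fin 0) k f = 0 := hf
    rw [map_eq_zero_iff _ (MvPowerSeries.isEmptyEquiv (Fin 0) k).injective] at h1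
    rw [h1]
    exact Ideal.zero_mem _
  | succ n ih =>
    set e := MvPowerSeries.finSuccEquiv k n with he
    have h0 : MvPowerSeries.constantCoeff (PowerSeries.constantCoeff (e f)) = 0 := by
      have := MvPowerSeries.coeff_coeff_finSuccEquiv (R := k) f (k := 0) (x := 0)
      rw [Finsupp.cons_zero_zero] at this
      rw [← MvPowerSeries.coeff_zero_eq_constantCoeff_apply,
        ← PowerSeries.coeff_zero_eq_constantCoeff_apply, this,
        MvPowerSeries.coeff_zero_eq_constantCoeff_apply, hf]
    have h1 := ih _ h0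
    have h2 : e f = PowerSeries.X * PowerSeries.mk (fun p => PowerSeries.coeff (p + 1) (e f)) +
        PowerSeries.C (PowerSeries.constantCoeff (e f)) := PowerSeries.eq_X_mul_shift_add_const _
    have h3 : f = MvPowerSeries.X 0 *
        e.symm (PowerSeries.mk (fun p => PowerSeries.coeff (p + 1) (e f))) +
        e.symm (PowerSeries.C (PowerSeries.constantCoeff (e f))) := by
      apply e.injective
      rw [map_add, map_mul, AlgEquiv.apply_symm_apply, AlgEquiv.apply_symm_apply, he,
        MvPowerSeries.finSuccEquiv_X_zero]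
      exact h2
    rw [h3]
    apply Ideal.add_mem
    · exact Ideal.mul_mem_right _ _ (Ideal.subset_span ⟨0, rfl⟩)
    · let φ : PS k n →+* PS k (n + 1) := (e.symm : _ →+* _).comp PowerSeries.C
      have h4 : (Ideal.span (Set.range (MvPowerSeries.X : Fin n → PS k n))).map φ ≤
          Ideal.span (Set.range (MvPowerSeries.X : Fin (n + 1) → PS k (n + 1))) := by
        rw [Ideal.map_span, Ideal.span_le]
        rintro _ ⟨_, ⟨j, rfl⟩, rfl⟩
        have h5 : φ (MvPowerSeries.X j) = MvPowerSeries.X j.succ := by
          apply e.injective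
          change e (e.symm _) = _
          rw [AlgEquiv.apply_symm_apply, he, MvPowerSeries.finSuccEquiv_X_succ]
        rw [h5]
        exact Ideal.subset_span ⟨_, rfl⟩
      exact h4 (Ideal.mem_map_of_mem φ h1)

theorem mem_maximalIdeal_iff (n : ℕ) (f : PS k n) :
    f ∈ maximalIdeal (PS k n) ↔ MvPowerSeries.constantCoeff f = 0 := by
  rw [IsLocalRing.mem_maximalIdeal, mem_nonunits_iff, MvPowerSeries.isUnit_iff_constantCoeff,
    isUnit_iff_ne_zero, not_not]

theorem maximalIdeal_eq (n : ℕ) :
    maximalIdeal (PS k n) = Ideal.span (Set.range (MvPowerSeries.X : Fin n → PS k n)) := by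
  apply le_antisymm
  · intro f hf
    exact mem_span_X k n f ((mem_maximalIdeal_iff k n f).1 hf)
  · rw [Ideal.span_le]
    rintro _ ⟨j, rfl⟩
    rw [SetLike.mem_coe, mem_maximalIdeal_iff, MvPowerSeries.constantCoeff_X]

theorem spanFinrank_le (n : ℕ) : (maximalIdeal (PS k n)).spanFinrank ≤ n := by
  rw [maximalIdeal_eq]
  refine (Submodule.spanFinrank_span_le_ncard_of_finite (Set.finite_range _)).trans ?_
  rw [← Set.image_univ]
  refine (Set.ncard_image_le Set.finite_univ).trans ?_
  rw [Set.ncard_univ, Nat.card_eq_fintype_card, Fintype.card_fin]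

theorem le_dim (n : ℕ) : (n : WithBot ℕ∞) ≤ ringKrullDim (PS k n) := by
  induction n with
  | zero =>
    rw [Nat.cast_zero]
    exact ringKrullDim_nonneg_of_nontrivial
  | succ n ih =>
    have h1 := ringKrullDim_succ_le_ringKrullDim_powerseries (R := PS k n)
    rw [← ringKrullDim_eq_of_ringEquiv (MvPowerSeries.finSuccEquiv k n).toRingEquiv] at h1
    refine le_trans ?_ h1
    push_cast
    gcongr

theorem dim_eq (n : ℕ) : ringKrullDim (PS k n) = n := by
  apply le_antisymm
  · refine (ringKrullDim_le_spanFinrank_maximalIdeal (PS k n)).trans ?_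
    exact_mod_cast spanFinrank_le k n
  · exact le_dim k n

theorem regular (n : ℕ) : IsRegularLocalRing (PS k n) := by
  apply IsRegularLocalRing.of_spanFinrank_maximalIdeal_le
  rw [dim_eq]
  exact_mod_cast spanFinrank_le k n

theorem complete (n : ℕ) : IsAdicComplete (maximalIdeal (PS k n)) (PS k n) := by
  rw [maximalIdeal_eq]
  infer_instance

/-- The map `k[[x, y, z]] → k[[z]]` killing `x` and `y`. -/
noncomputable def rho : PS k 3 →+* PS k 1 :=
  (((PowerSeries.constantCoeff : PowerSeries (PS k 1) →+* PS k 1).comp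
    (MvPowerSeries.finSuccEquiv k 1 : PS k 2 →+* PowerSeries (PS k 1))).comp
    (PowerSeries.constantCoeff : PowerSeries (PS k 2) →+* PS k 2)).comp
    (MvPowerSeries.finSuccEquiv k 2 : PS k 3 →+* PowerSeries (PS k 2))

theorem rho_surjective : Function.Surjective (rho k) := by
  intro f
  refine ⟨(MvPowerSeries.finSuccEquiv k 2).symm (PowerSeries.C
    ((MvPowerSeries.finSuccEquiv k 1).symm (PowerSeries.C f))), ?_⟩
  simp [rho]

theorem ker_rho : RingHom.ker (rho k) =
    Ideal.span {MvPowerSeries.X 0} ⊔ Ideal.span {MvPowerSeries.X 1} := by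
  apply le_antisymm
  · intro f hf
    set e := MvPowerSeries.finSuccEquiv k 2 with he
    set e' := MvPowerSeries.finSuccEquiv k 1 with he'
    have h0 : PowerSeries.constantCoeff (e' (PowerSeries.constantCoeff (e f))) = 0 := hf
    have h2 : e f = PowerSeries.X * PowerSeries.mk (fun p => PowerSeries.coeff (p + 1) (e f)) +
        PowerSeries.C (PowerSeries.constantCoeff (e f)) := PowerSeries.eq_X_mul_shift_add_const _
    set a := PowerSeries.constantCoeff (e f) with ha
    have h3 : e' a = PowerSeries.X * PowerSeries.mk (fun p => PowerSeries.coeff (p + 1) (e' a)) +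
        PowerSeries.C (PowerSeries.constantCoeff (e' a)) := PowerSeries.eq_X_mul_shift_add_const _
    rw [h0, map_zero, add_zero] at h3
    have h4 : a = MvPowerSeries.X 0 *
        e'.symm (PowerSeries.mk (fun p => PowerSeries.coeff (p + 1) (e' a))) := by
      apply e'.injective
      rw [map_mul, AlgEquiv.apply_symm_apply, he', MvPowerSeries.finSuccEquiv_X_zero]
      exact h3
    have h5 : f = MvPowerSeries.X 0 *
        e.symm (PowerSeries.mk (fun p => PowerSeries.coeff (p + 1) (e f))) +
        MvPowerSeries.X 1 * e.symm (PowerSeries.C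
          (e'.symm (PowerSeries.mk (fun p => PowerSeries.coeff (p + 1) (e' a))))) := by
      apply e.injective
      have h6 : e (MvPowerSeries.X 1) = PowerSeries.C (MvPowerSeries.X 0) := by
        have := MvPowerSeries.finSuccEquiv_X_succ (R := k) (n := 2) 0
        exact this
      rw [map_add, map_mul, map_mul, AlgEquiv.apply_symm_apply, AlgEquiv.apply_symm_apply, h6,
        ← map_mul PowerSeries.C, ← h4, he, MvPowerSeries.finSuccEquiv_X_zero]
      exact h2
    rw [h5]
    exact Ideal.add_mem _ (Ideal.mem_sup_left (Ideal.mul_mem_right _ _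
      (Ideal.mem_span_singleton_self _))) (Ideal.mem_sup_right (Ideal.mul_mem_right _ _
      (Ideal.mem_span_singleton_self _)))
  · apply sup_le
    · rw [Ideal.span_singleton_le_iff_mem, RingHom.mem_ker]
      simp [rho]
    · rw [Ideal.span_singleton_le_iff_mem, RingHom.mem_ker]
      have h6 : MvPowerSeries.finSuccEquiv k 2 (MvPowerSeries.X 1) =
          PowerSeries.C (MvPowerSeries.X 0) :=
        MvPowerSeries.finSuccEquiv_X_succ (R := k) (n := 2) 0
      simp [rho, h6]

instance : IsPrincipalIdealRing (PS k 1) := by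
  let e : PowerSeries k ≃ₐ[k] PS k 1 :=
    MvPowerSeries.renameEquiv k (Equiv.ofUnique Unit (Fin 1))
  exact IsPrincipalIdealRing.of_surjective (e : PowerSeries k →+* PS k 1) e.surjective

theorem PIR (K : Ideal (PS k 3)) (hK : Ideal.span {MvPowerSeries.X 0} ⊔
    Ideal.span {MvPowerSeries.X 1} ≤ K) :
    ∃ a, K = Ideal.span {a} ⊔ (Ideal.span {MvPowerSeries.X 0} ⊔ Ideal.span {MvPowerSeries.X 1}) := by
  rw [← ker_rho] at hK ⊢
  obtain ⟨b, hb⟩ := IsPrincipalIdealRing.principal (K.map (rho k))
  obtain ⟨a, rfl⟩ := rho_surjective k b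
  refine ⟨a, ?_⟩
  have h1 : (K.map (rho k)).comap (rho k) = K := by
    rw [Ideal.comap_map_of_surjective _ (rho_surjective k)]
    exact sup_eq_left.2 hK
  have h2 : ((Ideal.span {a}).map (rho k)).comap (rho k) = Ideal.span {a} ⊔ RingHom.ker (rho k) :=
    Ideal.comap_map_of_surjective _ (rho_surjective k) _
  rw [← h2, Ideal.map_span, Set.image_singleton, ← h1, hb]

end Pool.Agent.V113.Lech
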